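import Pool.Agent.H113Z.Dist.Defs

namespace Pool.Agent.H113Z.Dist
open Filter Topology Set Asymptotics

namespace H533

theorem den_bd {a t : ℝ} (ha : a = 1 ∨ a = -1) (ht : |t| ≤ 1 / 2) :
    1 / 2 ≤ 1 + a * t ∧ 1 + a * t ≤ 3 / 2 := by
  rw [abs_le] at ht
  rcases ha with rfl | rfl <;> constructor <;> linarith [ht.1, ht.2]

theorem D2_eq (f : ℝ → ℝ) : D 2 f = deriv (deriv f) := by
  show iteratedDeriv 2 f = _
  rw [iteratedDeriv_succ, iteratedDeriv_one]

theorem z_zero {z : ℝ → ℝ} (h : Tendsto (fun y => y * z y) atTop (𝓝 1)) :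
    Tendsto z atTop (𝓝 0) := by
  have h1 := h.mul tendsto_inv_atTop_zero
  rw [mul_zero] at h1
  refine h1.congr' ?_
  filter_upwards [eventually_gt_atTop (0 : ℝ)] with y hy
  field_simp

end H533

open H533 in
theorem phi : PhiStmt := by
  intro a z ha hz hb h7
  obtain ⟨h71, h72, Y0, h73⟩ := h7
  have hden : ∀ x, 1 / 2 ≤ 1 + a * z x ∧ 1 + a * z x ≤ 3 / 2 := fun x => den_bd ha (hb x)
  have hne : ∀ x, 1 + a * z x ≠ 0 := fun x => by linarith [(hden x).1]
  have ha2 : a * a = 1 := by rcases ha with rfl | rfl <;> norm_num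
  set g : ℝ → ℝ := fun x => 1 / (1 + a * z x) with hg
  have hgC : ContDiff ℝ 6 g := contDiff_const.div (contDiff_const.add (contDiff_const.mul hz)) hne
  have hgl : ∀ x, 2 / 3 ≤ g x := fun x => by
    simp only [hg]
    rw [le_div_iff₀ (by linarith [(hden x).1])]
    linarith [(hden x).2]
  set F0 : ℝ → ℝ := fun x => ∫ t in (0 : ℝ)..x, g t with hF0
  have hF0d : ∀ x, HasDerivAt F0 (g x) x := fun x =>
    (hgC.continuous.integral_hasStrictDerivAt 0 x).hasDerivAt
  -- the limit
  obtain ⟨Y1, hY1⟩ : ∃ Y1, ∀ y ≥ Y1, |y * z y| ≤ 2 := by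
    have : ∀ᶠ y in atTop, |y * z y| ≤ 2 := by
      have h := (continuous_abs.tendsto 1).comp h71
      have h2 : ∀ᶠ y in atTop, |y * z y| < 2 := h.eventually (gt_mem_nhds (by norm_num))
      exact h2.mono fun y hy => hy.le
    exact eventually_atTop.1 this
  set Y : ℝ := max (max Y0 Y1) 1 with hY
  have hYa : Y0 ≤ Y := le_trans (le_max_left _ _) (le_max_left _ _)
  have hYb : Y1 ≤ Y := le_trans (le_max_right _ _) (le_max_left _ _)
  have hYc : 1 ≤ Y := le_max_right _ _
  set H : ℝ → ℝ := fun y => F0 y - (y - a * Real.log y) with hH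
  set h : ℝ → ℝ := fun y => -a * (z y - 1 / y) + z y ^ 2 / (1 + a * z y) with hh
  have hHd : ∀ y ∈ Ioi Y, HasDerivAt H (h y) y := by
    intro y hy
    have hy0 : 0 < y := by have : Y < y := hy; linarith
    have h1 : HasDerivAt H (g y - (1 - a * y⁻¹)) y :=
      (hF0d y).sub ((hasDerivAt_id y).sub ((Real.hasDerivAt_log hy0.ne').const_mul a))
    have h2 : h y = g y - (1 - a * y⁻¹) := by
      simp only [hh, hg]
      have := hne y
      field_simp
      linear_combination (-(y * z y ^ 2)) * ha2
    rw [h2]
    exact h1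
  have hint : MeasureTheory.IntegrableOn h (Ioi Y) := by
    apply MeasureTheory.Integrable.add
    · exact (h73.mono_set (Ioi_subset_Ioi hYa)).const_mul (-a)
    · have hi : MeasureTheory.IntegrableOn (fun y : ℝ => 8 * y ^ (-2 : ℝ)) (Ioi Y) :=
        (integrableOn_Ioi_rpow_of_lt (by norm_num) (by linarith)).const_mul 8
      refine MeasureTheory.Integrable.mono' hi ?_ ?_
      · exact ((hz.continuous.pow 2).div (continuous_const.add (continuous_const.mul hz.continuous))
          hne).aestronglyMeasurable
      · rw [MeasureTheory.ae_restrict_iff' measurableSet_Ioi]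
        refine Eventually.of_forall fun y hy => ?_
        have hy1 : Y < y := hy
        have hy0 : 0 < y := by linarith
        have h1 := hY1 y (by linarith)
        have h2 := (hden y).1
        have h3 : (y * z y) ^ 2 ≤ 4 := by
          rw [abs_le] at h1
          nlinarith [h1.1, h1.2]
        rw [Real.norm_eq_abs, abs_of_nonneg (by positivity), Real.rpow_neg hy0.le,
          div_le_iff₀ (by linarith)]
        have h4 : z y ^ 2 ≤ 4 * (y ^ (2 : ℝ))⁻¹ := by
          rw [Real.rpow_two, ← div_eq_mul_inv, le_div_iff₀ (by positivity)]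
          nlinarith
        have h5 : 0 ≤ (y ^ (2 : ℝ))⁻¹ := by positivity
        nlinarith
  have hlim := MeasureTheory.tendsto_limUnder_of_hasDerivAt_of_integrableOn_Ioi hHd hint
  set L := limUnder atTop H with hL
  set F : ℝ → ℝ := fun x => F0 x - L with hF
  have hFd : ∀ x, HasDerivAt F (g x) x := fun x => (hF0d x).sub_const L
  have hder : deriv F = g := funext fun x => (hFd x).deriv
  have hdiff : Differentiable ℝ F := fun x => (hFd x).differentiableAt
  have hFC : ContDiff ℝ 4 F := by
    have : ContDiff ℝ (3 + 1) F := by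
      rw [contDiff_succ_iff_deriv]
      refine ⟨hdiff, by simp, ?_⟩
      rw [hder]
      exact hgC.of_le (by norm_num)
    exact this
  have hmono : StrictMono F := strictMono_of_deriv_pos fun x => by
    rw [hder]; linarith [hgl x]
  have hm2 : Monotone fun x => F x - x / 2 := by
    have hd : ∀ x, HasDerivAt (fun x => F x - x / 2) (g x - 1 / 2) x := fun x =>
      (hFd x).sub ((hasDerivAt_id x).div_const 2)
    apply monotone_of_deriv_nonneg (fun x => (hd x).differentiableAt)
    intro x
    rw [(hd x).deriv]
    linarith [hgl x]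
  have hsurj : Function.Surjective F := by
    apply hdiff.continuous.surjective
    · have h1 : Tendsto (fun x : ℝ => x / 2 + F 0) atTop atTop :=
        tendsto_atTop_add_const_right _ _ (tendsto_id.atTop_div_const (by norm_num))
      refine tendsto_atTop_mono' _ ?_ h1
      filter_upwards [eventually_ge_atTop (0 : ℝ)] with x hx
      have := hm2 hx
      simp only at this
      linarith
    · have h1 : Tendsto (fun x : ℝ => x / 2 + F 0) atBot atBot :=
        tendsto_atBot_add_const_right _ _ (tendsto_id.atBot_div_const (by norm_num))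
      refine tendsto_atBot_mono' _ ?_ h1
      filter_upwards [eventually_le_atBot (0 : ℝ)] with x hx
      have := hm2 hx
      simp only at this
      linarith
  refine ⟨Equiv.ofBijective F ⟨hmono.injective, hsurj⟩, ⟨hFC, fun x => ?_⟩, hFd, ?_⟩
  · show 0 < deriv F x
    rw [hder]; linarith [hgl x]
  have hz0 := z_zero h71
  have hd1 : Tendsto (fun y => 1 + a * z y) atTop (𝓝 1) := by
    have := (hz0.const_mul a).const_add 1
    simpa using this
  show As a F
  refine ⟨⟨0, (hFC.of_le (by norm_num)).contDiffOn⟩, ?_, ?_, ?_⟩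
  · have := hlim.sub_const L
    rw [sub_self] at this
    refine this.congr fun y => ?_
    simp only [hH, hF]
    ring
  · have := (h71.const_mul (-a)).div hd1 one_ne_zero
    rw [mul_one, div_one] at this
    refine this.congr fun y => ?_
    rw [hder]
    simp only [hg, Pi.div_apply]
    have := hne y
    field_simp
    ring
  · have := (h72.const_mul (-a)).div (hd1.pow 2) (by norm_num)
    rw [show -a * -1 / 1 ^ 2 = a by ring] at this
    refine this.congr fun y => ?_
    rw [D2_eq, hder]
    have hzd : HasDerivAt z (deriv z y) y :=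
      (hz.differentiable (by norm_num) y).hasDerivAt
    have h1 : HasDerivAt g ((0 * (1 + a * z y) - 1 * (a * deriv z y)) / (1 + a * z y) ^ 2) y :=
      (hasDerivAt_const y (1 : ℝ)).div ((hzd.const_mul a).const_add 1) (hne y)
    rw [h1.deriv]
    simp only [Pi.div_apply]
    ring

end Pool.Agent.H113Z.Dist
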