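import Pool.Agent.H533Z.DistPhi

namespace Pool.Agent.H113Z.Dist
open Filter Topology Set Asymptotics

namespace H533

theorem bd_of_zero {f : ℝ → ℝ} (hc : Continuous f) (h0 : ∀ x, x < 0 ∨ 1 < x → f x = 0) :
    ∃ M, 0 ≤ M ∧ ∀ x, |f x| ≤ M := by
  obtain ⟨M, hM⟩ := (isCompact_Icc (a := (0 : ℝ)) (b := 1)).exists_bound_of_continuousOn
    hc.continuousOn
  have hM0 : 0 ≤ M := le_trans (norm_nonneg _) (hM 0 ⟨le_rfl, zero_le_one⟩)
  refine ⟨M, hM0, fun x => ?_⟩
  by_cases hx : x < 0 ∨ 1 < x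
  · rw [h0 x hx, abs_zero]; exact hM0
  · push Not at hx
    exact hM x ⟨hx.1, hx.2⟩

theorem st_loc (x : ℝ) (hx : x < 0 ∨ 1 < x) :
    ∃ c : ℝ, Real.smoothTransition =ᶠ[𝓝 x] fun _ => c := by
  rcases hx with hx | hx
  · refine ⟨0, ?_⟩
    filter_upwards [gt_mem_nhds hx] with y hy
    exact Real.smoothTransition.zero_of_nonpos hy.le
  · refine ⟨1, ?_⟩
    filter_upwards [lt_mem_nhds hx] with y hy
    exact Real.smoothTransition.one_of_one_le hy.le

theorem st_bd : ∃ M, 0 ≤ M ∧ (∀ x, |deriv Real.smoothTransition x| ≤ M) ∧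
    ∀ x, |deriv (deriv Real.smoothTransition) x| ≤ M := by
  have hC : ContDiff ℝ 2 Real.smoothTransition := Real.smoothTransition.contDiff
  have h1 : ContDiff ℝ 1 (deriv Real.smoothTransition) := hC.deriv'
  obtain ⟨M1, h10, h11⟩ := bd_of_zero h1.continuous (fun x hx => by
    obtain ⟨c, hc⟩ := st_loc x hx
    rw [hc.deriv_eq]; simp)
  obtain ⟨M2, h20, h21⟩ := bd_of_zero (h1.continuous_deriv le_rfl) (fun x hx => by
    obtain ⟨c, hc⟩ := st_loc x hx
    rw [hc.deriv.deriv_eq]; simp)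
  exact ⟨max M1 M2, le_trans h10 (le_max_left _ _), fun x => le_trans (h11 x) (le_max_left _ _),
    fun x => le_trans (h21 x) (le_max_right _ _)⟩

theorem op_zero {f : ℝ → ℝ} {r : ℝ} (hr : r < 0) (h : OP f r) : Tendsto f atTop (𝓝 0) := by
  have h1 : Tendsto (fun y : ℝ => y ^ r) atTop (𝓝 0) := by
    have := tendsto_rpow_neg_atTop (y := -r) (by linarith)
    simpa using this
  exact h.trans_tendsto h1

theorem op_congr {f g : ℝ → ℝ} {r : ℝ} (h : OP f r) (he : g =ᶠ[atTop] f) : OP g r :=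
  IsBigO.congr' h he.symm EventuallyEq.rfl

theorem big_pow {Y : ℝ} {e : ℕ} (he : ⌈Y⌉₊ + 3 ≤ e) : Y + 1 < 2 ^ e * ((e : ℝ) - 1) := by
  have h1 : (1 : ℝ) ≤ 2 ^ e := one_le_pow₀ (by norm_num)
  have h2 : ((⌈Y⌉₊ + 3 : ℕ) : ℝ) ≤ e := by exact_mod_cast he
  push_cast at h2
  have h3 := Nat.le_ceil Y
  have h4 : (0 : ℝ) ≤ ⌈Y⌉₊ := Nat.cast_nonneg _
  nlinarith

end H533

open H533 in
theorem zfinal (h1 : (∃ z, ZLoc z) ∧ Cover ∧ ∀ z, ZLoc z → Z235 z)
    (h2 : ∀ z, Cover → ZLoc z → ContDiffOn ℝ 6 z (Set.Ioi 24) ∧ ZO z ∧ Z4 z)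
    (h3 : ∀ z, Cover → ZLoc z → Z7 z) : ZStmt := by
  obtain ⟨⟨zr, hloc⟩, hcov, h235⟩ := h1
  obtain ⟨hC, hO, h4⟩ := h2 zr hcov hloc
  have h7 := h3 zr hcov hloc
  have h235 := h235 zr hloc
  intro ε hε
  obtain ⟨M, hM0, hM1, hM2⟩ := st_bd
  set δ : ℝ := ε / (3 * M + 1) with hδ
  have hδ0 : 0 < δ := by positivity
  have hδε : (3 * M + 1) * δ = ε := by rw [hδ]; field_simp
  have small : ∀ {f : ℝ → ℝ}, Tendsto f atTop (𝓝 0) → ∀ᶠ y in atTop, |f y| ≤ δ := by
    intro f hf
    have h := (continuous_abs.tendsto 0).comp hf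
    have h' : ∀ᶠ y in atTop, |f y| < δ := h.eventually (gt_mem_nhds (by simpa using hδ0))
    exact h'.mono fun y hy => hy.le
  obtain ⟨Y, hY⟩ := eventually_atTop.1 (((small (op_zero (by norm_num) hO.1)).and
    ((small (op_zero (by norm_num) hO.2.1)).and (small (op_zero (by norm_num) hO.2.2.1)))).and
    (eventually_ge_atTop (25 : ℝ)))
  have hY25 : 25 ≤ Y := (hY Y le_rfl).2
  set χ : ℝ → ℝ := fun y => Real.smoothTransition (y - Y) with hχ
  set z : ℝ → ℝ := fun y => χ y * zr y with hz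
  have hχC : ContDiff ℝ 6 χ :=
    Real.smoothTransition.contDiff.comp (contDiff_id.sub contDiff_const)
  have hlow : ∀ y < Y, z =ᶠ[𝓝 y] fun _ => 0 := by
    intro y hy
    filter_upwards [gt_mem_nhds hy] with t ht
    simp only [hz, hχ]
    rw [Real.smoothTransition.zero_of_nonpos (by linarith), zero_mul]
  have hhigh0 : ∀ y, Y + 1 < y → z y = zr y := by
    intro t ht
    simp only [hz, hχ]
    rw [Real.smoothTransition.one_of_one_le (by linarith), one_mul]
  have hhigh : ∀ y, Y + 1 < y → z =ᶠ[𝓝 y] zr := by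
    intro y hy
    filter_upwards [lt_mem_nhds hy] with t ht
    exact hhigh0 t ht
  have hD : ∀ (k : ℕ) (y : ℝ), Y + 1 < y → D k z y = D k zr y := fun k y hy =>
    (hhigh y hy).iteratedDeriv_eq k
  have hDe : ∀ k : ℕ, D k z =ᶠ[atTop] D k zr := fun k => by
    filter_upwards [eventually_gt_atTop (Y + 1)] with y hy
    exact hD k y hy
  have hd1e : deriv z =ᶠ[atTop] deriv zr := by
    filter_upwards [eventually_gt_atTop (Y + 1)] with y hy
    exact (hhigh y hy).deriv_eq
  have hze : z =ᶠ[atTop] zr := by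
    filter_upwards [eventually_gt_atTop (Y + 1)] with y hy
    exact hhigh0 y hy
  have hzC : ContDiff ℝ 6 z := by
    rw [contDiff_iff_contDiffAt]
    intro y
    by_cases hy : y < Y
    · exact contDiffAt_const.congr_of_eventuallyEq (hlow y hy)
    · have : y ∈ Ioi (24 : ℝ) := by
        show 24 < y
        linarith [not_lt.1 hy]
      exact hχC.contDiffAt.mul (hC.contDiffAt (Ioi_mem_nhds this))
  refine ⟨z, hzC, ?_, ?_, ?_, ?_, ?_⟩
  · intro x
    by_cases hx : x < Y
    · have h0 := hlow x hx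
      refine ⟨?_, ?_, ?_⟩
      · rw [h0.eq_of_nhds]; simpa using hε.le
      · rw [h0.deriv_eq]; simpa using hε.le
      · rw [D2_eq, h0.deriv.deriv_eq]; simpa using hε.le
    · have hxY : Y ≤ x := not_lt.1 hx
      obtain ⟨⟨b0, b1, b2⟩, -⟩ := hY x hxY
      have hSC : ContDiff ℝ 2 Real.smoothTransition := Real.smoothTransition.contDiff
      have hSC1 : ContDiff ℝ 1 (deriv Real.smoothTransition) := hSC.deriv'
      have hχd : ∀ t, HasDerivAt χ (deriv Real.smoothTransition (t - Y)) t := fun t => by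
        have := ((hSC.differentiable (by norm_num) (t - Y)).hasDerivAt).comp_sub_const t Y
        exact this
      have hχd2 : HasDerivAt (fun t => deriv Real.smoothTransition (t - Y))
          (deriv (deriv Real.smoothTransition) (x - Y)) x := by
        have := ((hSC1.differentiable (by norm_num) (x - Y)).hasDerivAt).comp_sub_const x Y
        exact this
      have hzrd : ∀ t, 24 < t → HasDerivAt zr (deriv zr t) t := fun t ht =>
        ((hC.contDiffAt (Ioi_mem_nhds ht)).differentiableAt (by norm_num)).hasDerivAt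
      have hx24 : 24 < x := by linarith
      have hC1 : ContDiffOn ℝ 1 (deriv zr) (Ioi 24) := hC.deriv_of_isOpen isOpen_Ioi (by norm_num)
      have hzrd2 : HasDerivAt (deriv zr) (deriv (deriv zr) x) x :=
        ((hC1.contDiffAt (Ioi_mem_nhds hx24)).differentiableAt (by norm_num)).hasDerivAt
      have hzd : ∀ t, 24 < t → deriv z t =
          deriv Real.smoothTransition (t - Y) * zr t + χ t * deriv zr t := fun t ht =>
        ((hχd t).mul (hzrd t ht)).deriv
      have hzde : deriv z =ᶠ[𝓝 x] fun t =>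
          deriv Real.smoothTransition (t - Y) * zr t + χ t * deriv zr t := by
        filter_upwards [lt_mem_nhds hx24] with t ht
        exact hzd t ht
      have hz2 : D 2 z x = (deriv (deriv Real.smoothTransition) (x - Y) * zr x +
          deriv Real.smoothTransition (x - Y) * deriv zr x) +
          (deriv Real.smoothTransition (x - Y) * deriv zr x + χ x * deriv (deriv zr) x) := by
        rw [D2_eq, hzde.deriv_eq]
        exact ((hχd2.mul (hzrd x hx24)).add ((hχd x).mul hzrd2)).deriv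
      have hχ1 : |χ x| ≤ 1 := by
        rw [abs_of_nonneg (Real.smoothTransition.nonneg _)]
        exact Real.smoothTransition.le_one _
      rw [D2_eq] at b2
      have m1 := hM1 (x - Y)
      have m2 := hM2 (x - Y)
      have pr : ∀ {p q P : ℝ}, |p| ≤ P → |q| ≤ δ → |p * q| ≤ P * δ := by
        intro p q P hp hq
        rw [abs_mul]
        exact mul_le_mul hp hq (abs_nonneg _) (le_trans (abs_nonneg _) hp)
      have hMδ : 0 ≤ M * δ := by positivity
      refine ⟨?_, ?_, ?_⟩
      · have := pr hχ1 b0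
        show |χ x * zr x| ≤ ε
        nlinarith
      · rw [hzd x hx24]
        have t1 := pr m1 b0
        have t2 := pr hχ1 b1
        refine le_trans (abs_add_le _ _) ?_
        nlinarith
      · rw [hz2]
        have t1 := pr m2 b0
        have t2 := pr m1 b1
        have t3 := pr hχ1 b2
        refine le_trans (abs_add_le _ _) (le_trans (add_le_add (abs_add_le _ _) (abs_add_le _ _)) ?_)
        nlinarith
  · exact ⟨op_congr hO.1 hze, op_congr hO.2.1 hd1e, op_congr hO.2.2.1 (hDe 2),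
      op_congr hO.2.2.2.1 (hDe 3), op_congr hO.2.2.2.2.1 (hDe 4), op_congr hO.2.2.2.2.2 (hDe 5)⟩
  · obtain ⟨C, e0, h⟩ := h4
    refine ⟨C, max e0 (⌈Y⌉₊ + 3), fun e he y hy1 hy2 => ?_⟩
    have := big_pow (le_trans (le_max_right _ _) he)
    rw [hD 2 y (by linarith)]
    exact h e (le_trans (le_max_left _ _) he) y hy1 hy2
  · obtain ⟨a1, a2, Y0, a3⟩ := h7
    refine ⟨a1.congr' ?_, a2.congr' ?_, max Y0 (Y + 1), ?_⟩
    · filter_upwards [hze] with y hy
      rw [hy]
    · filter_upwards [hd1e] with y hy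
      rw [hy]
    · refine (a3.mono_set (Ioi_subset_Ioi (le_max_left _ _))).congr_fun ?_ measurableSet_Ioi
      intro y hy
      have : max Y0 (Y + 1) < y := hy
      show zr y - 1 / y = z y - 1 / y
      rw [hhigh0 y (lt_of_le_of_lt (le_max_right _ _) this)]
  · obtain ⟨e0, c1, c2, c3⟩ := h235
    refine ⟨max e0 (⌈Y⌉₊ + 3), ?_, ?_, ?_⟩
    · intro e n he hn1 hn2 y hy1 hy2
      have hb := big_pow (le_trans (le_max_right _ _) he)
      have hw : 0 ≤ wd ((n : ℝ) - 1) := by unfold wd; positivity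
      have hen : (e : ℝ) ≤ n := by exact_mod_cast hn1
      have hp : (0 : ℝ) < 2 ^ e := by positivity
      have : 2 ^ e * ((e : ℝ) - 1) ≤ 2 ^ e * ((n : ℝ) - 1 + wd ((n : ℝ) - 1)) :=
        mul_le_mul_of_nonneg_left (by linarith) hp.le
      rw [hhigh0 y (by linarith)]
      exact c1 e n (le_trans (le_max_left _ _) he) hn1 hn2 y hy1 hy2
    · intro e i n he hn1 hn2 y hy
      have hb := big_pow (le_trans (le_max_right _ _) he)
      have hen : (e : ℝ) ≤ n := by exact_mod_cast le_trans (Nat.le_add_right e i) hn1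
      have hp : (0 : ℝ) < 2 ^ e := by positivity
      have h5 : 2 ^ e * (e : ℝ) ≤ 2 ^ e * (n : ℝ) := mul_le_mul_of_nonneg_left hen hp.le
      have h6 := (abs_le.1 hy).1
      have hyY : Y + 1 < y := by nlinarith
      have hi : (1 : ℝ) ≤ 2 ^ i := one_le_pow₀ (by norm_num)
      have hyY2 : Y + 1 < 2 ^ i * y := by nlinarith
      rw [hhigh0 y hyY, hhigh0 _ hyY2]
      exact c2 e i n (le_trans (le_max_left _ _) he) hn1 hn2 y hy
    · intro e he y hy1 hy2 hm
      have hb := big_pow (le_trans (le_max_right _ _) he)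
      rw [hD 2 y (by linarith)]
      exact c3 e (le_trans (le_max_left _ _) he) y hy1 hy2 hm

end Pool.Agent.H113Z.Dist
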