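import Mathlib

/-! Rademacher sums in finite dimensional `L₄`. -/

set_option autoImplicit false

namespace Pool.Agent.H533Z.QG

open Finset

variable {ι : Type} [Fintype ι] [DecidableEq ι]

/-- the sign -/
def sg (ε : ι → Bool) (i : ι) : ℝ := if ε i then 1 else -1

omit [Fintype ι] [DecidableEq ι] in
lemma sg_sq (ε : ι → Bool) (i : ι) : sg ε i * sg ε i = 1 := by
  unfold sg; split_ifs <;> norm_num

/-- flip one coordinate -/
def flp (a : ι) : (ι → Bool) ≃ (ι → Bool) where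
  toFun ε := Function.update ε a (!ε a)
  invFun ε := Function.update ε a (!ε a)
  left_inv ε := by
    funext i; by_cases h : i = a
    · subst h; simp
    · simp [Function.update_of_ne h]
  right_inv ε := by
    funext i; by_cases h : i = a
    · subst h; simp
    · simp [Function.update_of_ne h]

omit [Fintype ι] in
lemma sg_flp_self (a : ι) (ε : ι → Bool) : sg (flp a ε) a = - sg ε a := by
  unfold sg flp; cases h : ε a <;> simp [h]

omit [Fintype ι] in
lemma sg_flp_ne (a : ι) (ε : ι → Bool) {i : ι} (h : i ≠ a) : sg (flp a ε) i = sg ε i := by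
  unfold sg flp; simp [Function.update_of_ne h]

lemma sum_flp (a : ι) (F : (ι → Bool) → ℝ) :
    ∑ ε, F ε = (∑ ε, (F ε + F (flp a ε))) / 2 := by
  rw [Finset.sum_add_distrib, Equiv.sum_comp (flp a) F]; ring

lemma card_F : ((Fintype.card (ι → Bool) : ℕ) : ℝ) = 2 ^ Fintype.card ι := by
  simp

lemma mom2 (w : ι → ℝ) (s : Finset ι) :
    ∑ ε : ι → Bool, (∑ i ∈ s, w i * sg ε i) ^ 2 = 2 ^ Fintype.card ι * ∑ i ∈ s, w i ^ 2 := by
  induction s using Finset.induction_on with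
  | empty => simp
  | insert a s ha ih =>
    rw [sum_flp a]
    have : ∀ ε : ι → Bool, (∑ i ∈ insert a s, w i * sg ε i) ^ 2 +
        (∑ i ∈ insert a s, w i * sg (flp a ε) i) ^ 2 =
        2 * ((∑ i ∈ s, w i * sg ε i) ^ 2 + w a ^ 2) := by
      intro ε
      rw [sum_insert ha, sum_insert ha, sg_flp_self,
        Finset.sum_congr rfl (fun i hi => by
          rw [sg_flp_ne a ε (fun h => ha (h ▸ hi))] :
          ∀ i ∈ s, w i * sg (flp a ε) i = w i * sg ε i)]
      have h1 := sg_sq ε a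
      linear_combination (2 * w a ^ 2) * h1
    simp_rw [this]
    rw [← Finset.mul_sum, Finset.sum_add_distrib, ih, sum_insert ha]
    simp only [Finset.sum_const, Finset.card_univ, nsmul_eq_mul, card_F]
    ring

lemma mom4 (w : ι → ℝ) (s : Finset ι) :
    ∑ ε : ι → Bool, (∑ i ∈ s, w i * sg ε i) ^ 4 ≤
      3 * 2 ^ Fintype.card ι * (∑ i ∈ s, w i ^ 2) ^ 2 := by
  induction s using Finset.induction_on with
  | empty => simp
  | insert a s ha ih =>
    rw [sum_flp a]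
    have : ∀ ε : ι → Bool, (∑ i ∈ insert a s, w i * sg ε i) ^ 4 +
        (∑ i ∈ insert a s, w i * sg (flp a ε) i) ^ 4 =
        2 * ((∑ i ∈ s, w i * sg ε i) ^ 4 + 6 * w a ^ 2 * (∑ i ∈ s, w i * sg ε i) ^ 2
          + w a ^ 4) := by
      intro ε
      rw [sum_insert ha, sum_insert ha, sg_flp_self,
        Finset.sum_congr rfl (fun i hi => by
          rw [sg_flp_ne a ε (fun h => ha (h ▸ hi))] :
          ∀ i ∈ s, w i * sg (flp a ε) i = w i * sg ε i)]
      have h1 := sg_sq ε a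
      linear_combination (12 * w a ^ 2 * (∑ i ∈ s, w i * sg ε i) ^ 2
        + 2 * w a ^ 4 * (sg ε a * sg ε a + 1)) * h1
    simp_rw [this]
    rw [← Finset.mul_sum, Finset.sum_add_distrib, Finset.sum_add_distrib, ← Finset.mul_sum, mom2,
      sum_insert ha]
    simp only [Finset.sum_const, Finset.card_univ, nsmul_eq_mul, card_F]
    have h2 : (0 : ℝ) ≤ 2 ^ Fintype.card ι * w a ^ 4 := by positivity
    nlinarith

lemma orth (i j : ι) :
    ∑ ε : ι → Bool, sg ε i * sg ε j = if i = j then 2 ^ Fintype.card ι else 0 := by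
  split_ifs with h
  · subst h; simp [sg_sq]
  · rw [sum_flp i]
    have : ∀ ε : ι → Bool, sg ε i * sg ε j + sg (flp i ε) i * sg (flp i ε) j = 0 := by
      intro ε
      rw [sg_flp_self, sg_flp_ne i ε (Ne.symm h)]; ring
    simp [this]

variable (ι) in
/-- normalising constant -/
noncomputable def cc : ℝ := (Real.sqrt (Real.sqrt (2 ^ Fintype.card ι)))⁻¹

omit [DecidableEq ι] in
lemma cc_pow : cc ι ^ 4 * 2 ^ Fintype.card ι = 1 := by
  unfold cc
  have h : (0 : ℝ) < 2 ^ Fintype.card ι := by positivity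
  have h1 : Real.sqrt (Real.sqrt (2 ^ Fintype.card ι)) ^ 4 = 2 ^ Fintype.card ι := by
    rw [show (4 : ℕ) = 2 * 2 from rfl, pow_mul, Real.sq_sqrt (Real.sqrt_nonneg _),
      Real.sq_sqrt h.le]
  rw [inv_pow, h1]; field_simp

/-- embedding of Euclidean space -/
noncomputable def RR : (ι → ℝ) →ₗ[ℝ] ((ι → Bool) → ℝ) where
  toFun w ε := cc ι * ∑ i, w i * sg ε i
  map_add' w w' := by
    funext ε; simp [add_mul, Finset.sum_add_distrib, mul_add]
  map_smul' c w := by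
    funext ε; simp [Finset.mul_sum, mul_assoc, mul_left_comm]

/-- left inverse -/
noncomputable def RL : ((ι → Bool) → ℝ) →ₗ[ℝ] (ι → ℝ) where
  toFun z i := cc ι ^ 3 * ∑ ε, z ε * sg ε i
  map_add' w w' := by
    funext ε; simp [add_mul, Finset.sum_add_distrib, mul_add]
  map_smul' c w := by
    funext ε; simp [Finset.mul_sum, mul_assoc, mul_left_comm]

omit [DecidableEq ι] in
lemma RR_apply (w : ι → ℝ) (ε : ι → Bool) : RR w ε = cc ι * ∑ i, w i * sg ε i := rfl

lemma RL_apply (z : (ι → Bool) → ℝ) (i : ι) : RL z i = cc ι ^ 3 * ∑ ε, z ε * sg ε i := rfl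

lemma RL_RR (w : ι → ℝ) : RL (RR w) = w := by
  funext i
  rw [RL_apply]
  simp_rw [RR_apply, mul_assoc, Finset.sum_mul, mul_assoc]
  rw [← Finset.mul_sum, Finset.sum_comm]
  simp_rw [← Finset.mul_sum, orth]
  simp only [mul_ite, mul_zero, Finset.sum_ite_eq', Finset.mem_univ, if_true]
  linear_combination (w i) * (cc_pow (ι := ι))

lemma RR_bound (w : ι → ℝ) : ∑ ε, (RR w ε) ^ 4 ≤ 3 * (∑ i, w i ^ 2) ^ 2 := by
  simp_rw [RR_apply, mul_pow]
  rw [← Finset.mul_sum]
  have h := mom4 w Finset.univ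
  have h0 : 0 ≤ cc ι ^ 4 := by positivity
  calc _ ≤ cc ι ^ 4 * (3 * 2 ^ Fintype.card ι * (∑ i, w i ^ 2) ^ 2) :=
        mul_le_mul_of_nonneg_left h h0
    _ = _ := by linear_combination (3 * (∑ i, w i ^ 2) ^ 2) * (cc_pow (ι := ι))

lemma RL_bound (z : (ι → Bool) → ℝ) : (∑ i, (RL z i) ^ 2) ^ 2 ≤ ∑ ε, z ε ^ 4 := by
  set w := RL z with hw
  set W := ∑ i, w i ^ 2 with hW
  have hW0 : 0 ≤ W := by positivity
  have hc := cc_pow (ι := ι)
  have h1 : W = cc ι ^ 3 * ∑ ε, z ε * ∑ i, w i * sg ε i := by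
    simp_rw [Finset.mul_sum]
    rw [Finset.sum_comm, hW]
    refine Finset.sum_congr rfl fun i _ => ?_
    have : w i = cc ι ^ 3 * ∑ ε, z ε * sg ε i := rfl
    calc w i ^ 2 = w i * (cc ι ^ 3 * ∑ ε, z ε * sg ε i) := by rw [← this]; ring
      _ = _ := by
        simp_rw [Finset.mul_sum]
        exact Finset.sum_congr rfl fun ε _ => by ring
  have h2 := Finset.sum_mul_sq_le_sq_mul_sq Finset.univ z (fun ε => ∑ i, w i * sg ε i)
  rw [mom2, ← hW] at h2
  set Z := ∑ ε, z ε ^ 2 with hZ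
  have hZ0 : 0 ≤ Z := by positivity
  have h3 : W ^ 2 ≤ cc ι ^ 2 * Z * W := by
    calc W ^ 2 = cc ι ^ 6 * (∑ ε, z ε * ∑ i, w i * sg ε i) ^ 2 := by rw [h1]; ring
      _ ≤ cc ι ^ 6 * (Z * (2 ^ Fintype.card ι * W)) :=
        mul_le_mul_of_nonneg_left h2 (by positivity)
      _ = _ := by linear_combination (cc ι ^ 2 * Z * W) * hc
  have h4 : W ≤ cc ι ^ 2 * Z := by
    rcases hW0.eq_or_lt with h | h
    · rw [← h]; positivity
    · nlinarith
  have h5 := Finset.sum_mul_sq_le_sq_mul_sq Finset.univ (fun ε => z ε ^ 2) (fun _ => (1 : ℝ))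
  simp only [mul_one, one_pow, Finset.sum_const, Finset.card_univ, nsmul_eq_mul, card_F] at h5
  rw [← hZ] at h5
  have h6 : ∑ ε, (z ε ^ 2) ^ 2 = ∑ ε, z ε ^ 4 := Finset.sum_congr rfl fun ε _ => by ring
  rw [h6] at h5
  calc W ^ 2 ≤ (cc ι ^ 2 * Z) ^ 2 := pow_le_pow_left₀ hW0 h4 2
    _ = cc ι ^ 4 * Z ^ 2 := by ring
    _ ≤ cc ι ^ 4 * ((∑ ε, z ε ^ 4) * 2 ^ Fintype.card ι) :=
        mul_le_mul_of_nonneg_left h5 (by positivity)
    _ = _ := by linear_combination (∑ ε, z ε ^ 4) * hc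

/-- the Rademacher projection -/
noncomputable def PP : ((ι → Bool) → ℝ) →ₗ[ℝ] ((ι → Bool) → ℝ) := RR ∘ₗ RL

lemma PP_apply (z : (ι → Bool) → ℝ) : PP z = RR (RL z) := rfl

lemma PP_RR (w : ι → ℝ) : PP (RR w) = RR w := by rw [PP_apply, RL_RR]

lemma PP_PP (z : (ι → Bool) → ℝ) : PP (PP z) = PP z := by rw [PP_apply z, PP_RR]

lemma RL_PP (z : (ι → Bool) → ℝ) : RL (PP z) = RL z := by rw [PP_apply z, RL_RR]

lemma PP_bound (z : (ι → Bool) → ℝ) : ∑ ε, (PP z ε) ^ 4 ≤ 3 * ∑ ε, z ε ^ 4 := by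
  have h1 := RR_bound (RL z)
  have h2 := RL_bound z
  rw [PP_apply]; linarith

end Pool.Agent.H533Z.QG
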