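import Mathlib
import Pool.Agent.H533Z.QGRad

/-! A system in `ℓ₄` with Euclidean blocks (explicit decomposition method). -/

set_option autoImplicit false
set_option linter.unusedSectionVars false

namespace Pool.Agent.H533Z.QG

open Finset
open scoped ENNReal

instance fact4 : Fact (1 ≤ (4 : ℝ≥0∞)) := ⟨by norm_num⟩

/-- the space -/
abbrev EE : Type := lp (fun _ : ℕ => ℝ) 4

lemma root4 {a b : ℝ} (hb : 0 ≤ b) (h : a ^ 4 ≤ b ^ 4) : a ≤ b :=
  le_of_abs_le (abs_le_of_pow_le h hb)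
where
  abs_le_of_pow_le {a b : ℝ} (h : a ^ 4 ≤ b ^ 4) (hb : 0 ≤ b) : |a| ≤ b := by
    have : |a| ^ 4 ≤ b ^ 4 := by
      rwa [show |a| ^ 4 = a ^ 4 from by rw [show (4 : ℕ) = 2 * 2 from rfl, pow_mul, sq_abs, ← pow_mul]]
    exact (pow_le_pow_iff_left₀ (abs_nonneg a) hb (by norm_num)).1 this

section level0

variable {I : Type} (e : I ≃ ℕ)

/-- unit vectors -/
noncomputable def dl (i : I) : EE := lp.single 4 (e i) (1 : ℝ)

/-- coordinates -/
noncomputable def zt (i : I) : EE →L[ℝ] ℝ := lp.evalCLM ℝ (fun _ : ℕ => ℝ) 4 (e i)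

lemma zt_apply (i : I) (y : EE) : zt e i y = y (e i) := rfl

lemma zt_dl_self (i : I) : zt e i (dl e i) = 1 := by
  rw [zt_apply, dl, lp.single_apply_self]

lemma zt_dl_ne {i j : I} (h : i ≠ j) : zt e i (dl e j) = 0 := by
  rw [zt_apply, dl, lp.single_apply_ne]
  exact fun h' => h (e.injective h')

lemma four_toReal : (4 : ℝ≥0∞).toReal = ((4 : ℕ) : ℝ) := by norm_num

lemma zt_bound {α : Type} (φ : α → I) (hφ : Function.Injective φ) (S : Finset α) (y : EE) :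
    ∑ a ∈ S, (zt e (φ a) y) ^ 4 ≤ ‖y‖ ^ 4 := by
  classical
  have h := lp.sum_rpow_le_norm_rpow (p := 4) (by norm_num) y (S.image (fun a => e (φ a)))
  rw [Finset.sum_image (fun a _ b _ hab => hφ (e.injective hab))] at h
  simp only [four_toReal, Real.rpow_natCast, Real.norm_eq_abs] at h
  refine le_trans (le_of_eq (Finset.sum_congr rfl fun a _ => ?_)) h
  rw [zt_apply, show (4 : ℕ) = 2 * 2 from rfl, pow_mul, pow_mul, sq_abs]

lemma dl_bound {α : Type} (φ : α → I) (hφ : Function.Injective φ) (S : Finset α) (c : α → ℝ) :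
    ‖∑ a ∈ S, c a • dl e (φ a)‖ ^ 4 ≤ ∑ a ∈ S, c a ^ 4 := by
  classical
  have hinj : Function.Injective (fun a => e (φ a)) := fun a b hab => hφ (e.injective hab)
  have h := lp.norm_sum_single (E := fun _ : ℕ => ℝ) (p := 4) (by norm_num)
    (Function.extend (fun a => e (φ a)) c 0) (S.image (fun a => e (φ a)))
  rw [Finset.sum_image (fun a _ b _ hab => hinj hab),
    Finset.sum_image (fun a _ b _ hab => hinj hab)] at h
  simp only [four_toReal, Real.rpow_natCast, Real.norm_eq_abs, hinj.extend_apply] at h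
  have h1 : ∀ a, c a • dl e (φ a) = lp.single 4 (e (φ a)) (c a) := by
    intro a
    rw [dl, ← lp.single_smul, smul_eq_mul, mul_one]
  simp_rw [h1]
  rw [h]
  refine le_of_eq (Finset.sum_congr rfl fun a _ => ?_)
  rw [show (4 : ℕ) = 2 * 2 from rfl, pow_mul, pow_mul, sq_abs]

lemma dense_of_dl (W : Submodule ℝ EE) (h : ∀ i, dl e i ∈ W) : Dense (W : Set EE) := by
  intro y
  have hs := lp.hasSum_single (E := fun _ : ℕ => ℝ) (p := 4) (by norm_num) y
  refine mem_closure_of_tendsto hs (Filter.Eventually.of_forall fun S => ?_)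
  refine W.sum_mem fun n _ => ?_
  have : lp.single (E := fun _ : ℕ => ℝ) 4 n (y n) = y n • dl e (e.symm n) := by
    rw [dl, ← lp.single_smul, smul_eq_mul, mul_one, Equiv.apply_symm_apply]
  rw [this]
  exact W.smul_mem _ (h _)

end level0

section level1

variable {H : ℕ → Type} [∀ s, Fintype (H s)] [∀ s, DecidableEq (H s)] {X : Type}

variable (H) in
/-- cells -/
abbrev Cel : Type := (c : ℕ × ℕ) × (H c.1 → Bool)

variable (e : Cel H ⊕ X ≃ ℕ)

/-- put a vector in a cell -/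
noncomputable def place (s j : ℕ) : ((H s → Bool) → ℝ) →ₗ[ℝ] EE where
  toFun w := ∑ ε, w ε • dl e (Sum.inl ⟨(s, j), ε⟩)
  map_add' w w' := by simp [add_smul, Finset.sum_add_distrib]
  map_smul' c w := by simp [Finset.smul_sum, smul_smul]

lemma place_apply (s j : ℕ) (w : (H s → Bool) → ℝ) :
    place e s j w = ∑ ε, w ε • dl e (Sum.inl ⟨(s, j), ε⟩) := rfl

/-- read a cell -/
noncomputable def rd (s j : ℕ) : EE →L[ℝ] ((H s → Bool) → ℝ) :=
  ContinuousLinearMap.pi fun ε => zt e (Sum.inl ⟨(s, j), ε⟩)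

lemma rd_apply (s j : ℕ) (y : EE) (ε : H s → Bool) :
    rd e s j y ε = zt e (Sum.inl ⟨(s, j), ε⟩) y := rfl

lemma rd_place_self (s j : ℕ) (w : (H s → Bool) → ℝ) : rd e s j (place e s j w) = w := by
  funext ε
  rw [rd_apply, place_apply, map_sum, Finset.sum_eq_single ε]
  · rw [map_smul, zt_dl_self, smul_eq_mul, mul_one]
  · intro ε' _ h
    rw [map_smul, zt_dl_ne, smul_zero]
    intro h'
    apply h
    simpa [eq_comm] using h'
  · simp

lemma rd_place_ne {s j s' j' : ℕ} (h : (s, j) ≠ (s', j')) (w : (H s' → Bool) → ℝ) :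
    rd e s j (place e s' j' w) = 0 := by
  funext ε
  rw [rd_apply, place_apply, map_sum]
  refine Finset.sum_eq_zero fun ε' _ => ?_
  rw [map_smul, zt_dl_ne, smul_zero]
  intro h'
  exact h (congrArg Sigma.fst (Sum.inl.inj h'))

lemma rd_place (s j j' : ℕ) (w : (H s → Bool) → ℝ) :
    rd e s j (place e s j' w) = if j = j' then w else 0 := by
  split_ifs with h
  · subst h; exact rd_place_self e s j w
  · exact rd_place_ne e (fun h' => h (congrArg Prod.snd h')) w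

lemma rd_dl_inr (s j : ℕ) (t : X) : rd e s j (dl e (Sum.inr t)) = 0 := by
  funext ε
  rw [rd_apply, zt_dl_ne]
  · rfl
  · simp

lemma zt_place (t : X) (s j : ℕ) (w : (H s → Bool) → ℝ) :
    zt e (Sum.inr t) (place e s j w) = 0 := by
  rw [place_apply, map_sum]
  refine Finset.sum_eq_zero fun ε' _ => ?_
  rw [map_smul, zt_dl_ne, smul_zero]
  simp

/-- Euclidean blocks -/
noncomputable def EV (s : ℕ) : (H s → ℝ) →ₗ[ℝ] EE := place e s 0 ∘ₗ RR

/-- Euclidean coordinates -/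
noncomputable def UU (s : ℕ) : EE →L[ℝ] (H s → ℝ) :=
  (LinearMap.toContinuousLinearMap RL).comp (rd e s 0)

/-- the other blocks -/
noncomputable def EP (s j : ℕ) : ((H s → Bool) → ℝ) →ₗ[ℝ] EE :=
  place e s j - place e s j ∘ₗ PP + place e s (j + 1) ∘ₗ PP

/-- the other coordinates -/
noncomputable def BT (s j : ℕ) : EE →L[ℝ] ((H s → Bool) → ℝ) :=
  rd e s j - (LinearMap.toContinuousLinearMap PP).comp (rd e s j)
    + (LinearMap.toContinuousLinearMap PP).comp (rd e s (j + 1))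

lemma EV_apply (s : ℕ) (w : H s → ℝ) : EV e s w = place e s 0 (RR w) := rfl
lemma UU_apply (s : ℕ) (y : EE) : UU e s y = RL (rd e s 0 y) := rfl
lemma EP_apply (s j : ℕ) (d : (H s → Bool) → ℝ) :
    EP e s j d = place e s j d - place e s j (PP d) + place e s (j + 1) (PP d) := rfl
lemma BT_apply (s j : ℕ) (y : EE) :
    BT e s j y = rd e s j y - PP (rd e s j y) + PP (rd e s (j + 1) y) := rfl

lemma UU_EV_self (s : ℕ) (w : H s → ℝ) : UU e s (EV e s w) = w := by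
  rw [UU_apply, EV_apply, rd_place_self, RL_RR]

lemma UU_EV_ne {s s' : ℕ} (h : s ≠ s') (w : H s' → ℝ) : UU e s (EV e s' w) = 0 := by
  rw [UU_apply, EV_apply, rd_place_ne e (fun h' => h (congrArg Prod.fst h')), map_zero]

lemma UU_EP (s s' j : ℕ) (d : (H s' → Bool) → ℝ) : UU e s (EP e s' j d) = 0 := by
  by_cases h : s = s'
  · subst h
    rw [UU_apply, EP_apply, map_add, map_sub, rd_place, rd_place, rd_place]
    by_cases hj : 0 = j
    · subst hj; simp [RL_PP]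
    · simp [hj]
  · rw [UU_apply, EP_apply, map_add, map_sub, rd_place_ne e (fun h' => h (congrArg Prod.fst h')),
      rd_place_ne e (fun h' => h (congrArg Prod.fst h')),
      rd_place_ne e (fun h' => h (congrArg Prod.fst h'))]
    simp

lemma UU_dl (s : ℕ) (t : X) : UU e s (dl e (Sum.inr t)) = 0 := by
  rw [UU_apply, rd_dl_inr, map_zero]

lemma BT_EV (s j s' : ℕ) (w : H s' → ℝ) : BT e s j (EV e s' w) = 0 := by
  by_cases h : s = s'
  · subst h
    rw [BT_apply, EV_apply, rd_place, rd_place]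
    by_cases hj : j = 0
    · simp [hj, PP_RR]
    · simp [hj]
  · rw [BT_apply, EV_apply, rd_place_ne e (fun h' => h (congrArg Prod.fst h')),
      rd_place_ne e (fun h' => h (congrArg Prod.fst h'))]
    simp

lemma BT_EP_self (s j : ℕ) (d : (H s → Bool) → ℝ) : BT e s j (EP e s j d) = d := by
  simp only [BT_apply, EP_apply, map_add, map_sub, rd_place]
  simp [PP_PP]

lemma BT_EP_ne {s j s' j' : ℕ} (h : (s, j) ≠ (s', j')) (d : (H s' → Bool) → ℝ) :
    BT e s j (EP e s' j' d) = 0 := by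
  by_cases hs : s = s'
  · subst hs
    have hj : j ≠ j' := fun h' => h (by rw [h'])
    simp only [BT_apply, EP_apply, map_add, map_sub, rd_place]
    by_cases h1 : j = j' + 1
    · have h2 : j' + 1 + 1 ≠ j' := by omega
      simp [h1, h2, PP_PP]
    · by_cases h2 : j + 1 = j'
      · simp [hj, h1, h2, PP_PP]
      · simp [hj, h1, h2]
  · have : ∀ (a b : ℕ) (w : (H s' → Bool) → ℝ), rd e s a (place e s' b w) = 0 :=
      fun a b w => rd_place_ne e (fun h' => hs (congrArg Prod.fst h')) w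
    simp only [BT_apply, EP_apply, map_add, map_sub, this]
    simp

lemma BT_dl (s j : ℕ) (t : X) : BT e s j (dl e (Sum.inr t)) = 0 := by
  simp [BT_apply, rd_dl_inr]

lemma zt_EV (t : X) (s : ℕ) (w : H s → ℝ) : zt e (Sum.inr t) (EV e s w) = 0 := by
  rw [EV_apply, zt_place]

lemma zt_EP (t : X) (s j : ℕ) (d : (H s → Bool) → ℝ) : zt e (Sum.inr t) (EP e s j d) = 0 := by
  simp [EP_apply, zt_place]

lemma place_bound (r : ℕ) (T : Finset (ℕ × ℕ)) (d : (c : ℕ × ℕ) → (H c.1 → Bool) → ℝ) :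
    ‖∑ c ∈ T, place e c.1 (c.2 + r) (d c)‖ ^ 4 ≤ ∑ c ∈ T, ∑ ε, d c ε ^ 4 := by
  have h := dl_bound e (fun a : Cel H => Sum.inl ⟨(a.1.1, a.1.2 + r), a.2⟩) (by
    rintro ⟨⟨s, j⟩, ε⟩ ⟨⟨s', j'⟩, ε'⟩ h
    simp only [Sum.inl.injEq, Sigma.mk.injEq, Prod.mk.injEq, add_left_inj] at h
    obtain ⟨⟨rfl, rfl⟩, h⟩ := h
    rw [eq_of_heq h]) (T.sigma fun _ => Finset.univ) (fun a => d a.1 a.2)
  rw [Finset.sum_sigma, Finset.sum_sigma] at h
  exact h

lemma rd_bound (r : ℕ) (T : Finset (ℕ × ℕ)) (y : EE) :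
    ∑ c ∈ T, ∑ ε, (rd e c.1 (c.2 + r) y ε) ^ 4 ≤ ‖y‖ ^ 4 := by
  have h := zt_bound e (fun a : Cel H => Sum.inl ⟨(a.1.1, a.1.2 + r), a.2⟩) (by
    rintro ⟨⟨s, j⟩, ε⟩ ⟨⟨s', j'⟩, ε'⟩ h
    simp only [Sum.inl.injEq, Sigma.mk.injEq, Prod.mk.injEq, add_left_inj] at h
    obtain ⟨⟨rfl, rfl⟩, h⟩ := h
    rw [eq_of_heq h]) (T.sigma fun _ => Finset.univ) y
  rw [Finset.sum_sigma] at h
  exact h

lemma EV_bound (S : Finset ℕ) (w : (s : ℕ) → H s → ℝ) :
    ‖∑ s ∈ S, EV e s (w s)‖ ^ 4 ≤ 3 * ∑ s ∈ S, (∑ a, w s a ^ 2) ^ 2 := by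
  have h := place_bound e 0 (S ×ˢ {0}) (fun c => RR (w c.1))
  simp only [Finset.sum_product, Finset.sum_singleton, add_zero] at h
  refine le_trans h ?_
  rw [Finset.mul_sum]
  exact Finset.sum_le_sum fun s _ => RR_bound (w s)

lemma UU_bound (S : Finset ℕ) (y : EE) :
    ∑ s ∈ S, (∑ a, (UU e s y a) ^ 2) ^ 2 ≤ ‖y‖ ^ 4 := by
  have h := rd_bound e 0 (S ×ˢ {0}) y
  simp only [Finset.sum_product, Finset.sum_singleton, add_zero] at h
  refine le_trans ?_ h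
  exact Finset.sum_le_sum fun s _ => RL_bound (rd e s 0 y)

lemma EP_bound (T : Finset (ℕ × ℕ)) (d : (c : ℕ × ℕ) → (H c.1 → Bool) → ℝ) (Y : ℝ) (hY : 0 ≤ Y)
    (h : ∑ c ∈ T, ∑ ε, d c ε ^ 4 ≤ Y ^ 4) : ‖∑ c ∈ T, EP e c.1 c.2 (d c)‖ ≤ 5 * Y := by
  simp_rw [EP_apply]
  rw [Finset.sum_add_distrib, Finset.sum_sub_distrib]
  have hP : ∑ c ∈ T, ∑ ε, PP (d c) ε ^ 4 ≤ (2 * Y) ^ 4 := by
    calc _ ≤ ∑ c ∈ T, 3 * ∑ ε, d c ε ^ 4 := Finset.sum_le_sum fun c _ => PP_bound (d c)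
      _ = 3 * ∑ c ∈ T, ∑ ε, d c ε ^ 4 := by rw [Finset.mul_sum]
      _ ≤ _ := by
        have : 0 ≤ Y ^ 4 := by positivity
        nlinarith
  have h1 : ‖∑ c ∈ T, place e c.1 c.2 (d c)‖ ≤ Y := root4 hY ((place_bound e 0 T d).trans h)
  have h2 : ‖∑ c ∈ T, place e c.1 c.2 (PP (d c))‖ ≤ 2 * Y :=
    root4 (by positivity) ((place_bound e 0 T (fun c => PP (d c))).trans hP)
  have h3 : ‖∑ c ∈ T, place e c.1 (c.2 + 1) (PP (d c))‖ ≤ 2 * Y :=
    root4 (by positivity) ((place_bound e 1 T (fun c => PP (d c))).trans hP)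
  have h4 := norm_add_le (∑ c ∈ T, place e c.1 c.2 (d c) - ∑ c ∈ T, place e c.1 c.2 (PP (d c)))
    (∑ c ∈ T, place e c.1 (c.2 + 1) (PP (d c)))
  have h5 := norm_sub_le (∑ c ∈ T, place e c.1 c.2 (d c)) (∑ c ∈ T, place e c.1 c.2 (PP (d c)))
  linarith

lemma pow4_three (a b c : ℝ) : (a - b + c) ^ 4 ≤ 27 * (a ^ 4 + b ^ 4 + c ^ 4) := by
  have h1 : (a - b + c) ^ 2 ≤ 3 * (a ^ 2 + b ^ 2 + c ^ 2) := by
    nlinarith [sq_nonneg (a + b), sq_nonneg (b + c), sq_nonneg (a - c)]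
  have h2 : (a ^ 2 + b ^ 2 + c ^ 2) ^ 2 ≤ 3 * (a ^ 4 + b ^ 4 + c ^ 4) := by
    nlinarith [sq_nonneg (a ^ 2 - b ^ 2), sq_nonneg (b ^ 2 - c ^ 2), sq_nonneg (a ^ 2 - c ^ 2)]
  have h3 : ((a - b + c) ^ 2) ^ 2 ≤ (3 * (a ^ 2 + b ^ 2 + c ^ 2)) ^ 2 :=
    pow_le_pow_left₀ (sq_nonneg _) h1 2
  nlinarith

lemma BT_bound (T : Finset (ℕ × ℕ)) (y : EE) :
    ∑ c ∈ T, ∑ ε, (BT e c.1 c.2 y ε) ^ 4 ≤ (4 * ‖y‖) ^ 4 := by
  have h0 := rd_bound e 0 T y
  have h1 := rd_bound e 1 T y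
  simp only [add_zero] at h0
  have h2 : ∀ c : ℕ × ℕ, ∑ ε, (BT e c.1 c.2 y ε) ^ 4 ≤
      108 * ∑ ε, (rd e c.1 c.2 y ε) ^ 4 + 81 * ∑ ε, (rd e c.1 (c.2 + 1) y ε) ^ 4 := by
    intro c
    have a1 := PP_bound (rd e c.1 c.2 y)
    have a2 := PP_bound (rd e c.1 (c.2 + 1) y)
    have a3 : ∑ ε, (BT e c.1 c.2 y ε) ^ 4 ≤ ∑ ε, 27 * ((rd e c.1 c.2 y ε) ^ 4 +
        (PP (rd e c.1 c.2 y) ε) ^ 4 + (PP (rd e c.1 (c.2 + 1) y) ε) ^ 4) :=
      Finset.sum_le_sum fun ε _ => pow4_three _ _ _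
    rw [← Finset.mul_sum, Finset.sum_add_distrib, Finset.sum_add_distrib] at a3
    linarith
  have h3 := Finset.sum_le_sum fun c (_ : c ∈ T) => h2 c
  rw [Finset.sum_add_distrib, ← Finset.mul_sum, ← Finset.mul_sum] at h3
  have : 0 ≤ ‖y‖ ^ 4 := by positivity
  nlinarith

lemma place_mem (W : Submodule ℝ EE) (h1 : ∀ s w, EV e s w ∈ W) (h2 : ∀ s j d, EP e s j d ∈ W)
    (s j : ℕ) (w : (H s → Bool) → ℝ) : place e s j w ∈ W := by
  have a1 : place e s j (w - PP w) ∈ W := by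
    have := h2 s j (w - PP w)
    simpa [EP_apply, PP_PP] using this
  have a2 : place e s j (PP w) ∈ W := by
    cases j with
    | zero => exact h1 s (RL w)
    | succ j =>
      have := h2 s j (PP w)
      simpa [EP_apply, PP_PP] using this
  have := W.add_mem a1 a2
  rwa [← map_add, sub_add_cancel] at this

lemma dense_of_level1 (W : Submodule ℝ EE) (h1 : ∀ s w, EV e s w ∈ W)
    (h2 : ∀ s j d, EP e s j d ∈ W) (h3 : ∀ t, dl e (Sum.inr t) ∈ W) : Dense (W : Set EE) := by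
  refine dense_of_dl e W ?_
  rintro (⟨⟨s, j⟩, ε⟩ | t)
  · have := place_mem e W h1 h2 s j (Pi.single ε 1)
    rw [place_apply, Finset.sum_eq_single ε] at this
    · simpa using this
    · intro ε' _ h
      simp [Pi.single_eq_of_ne h]
    · simp
  · exact h3 t

end level1

end Pool.Agent.H533Z.QG
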