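import Mathlib

/-! The estimate on one pair of blocks. -/

set_option autoImplicit false

namespace Pool.Agent.H533Z.QG

open Finset

/-- telescoping weight -/
noncomputable def gg (x : ℝ) : ℝ := 2 * x / (1 + 2 * x) - x / (1 + x)

lemma gg_eq {x : ℝ} (hx : 0 ≤ x) : gg x = x / ((1 + x) * (1 + 2 * x)) := by
  unfold gg; field_simp; ring

lemma gg_nonneg {x : ℝ} (hx : 0 ≤ x) : 0 ≤ gg x := by
  rw [gg_eq hx]; positivity

lemma gg_small {x : ℝ} (hx : 0 ≤ x) (h : x ≤ 1) : x ≤ 6 * gg x := by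
  rw [gg_eq hx, ← mul_div_assoc, le_div_iff₀ (by positivity)]
  have : (1 + x) * (1 + 2 * x) ≤ 6 := by nlinarith
  nlinarith

lemma gg_large {x : ℝ} (h : 1 ≤ x) : 1 ≤ 6 * gg x * x := by
  have hx : 0 ≤ x := by linarith
  rw [gg_eq hx, ← mul_div_assoc, div_mul_eq_mul_div, le_div_iff₀ (by positivity)]
  nlinarith

lemma gg_sum (q : ℝ) (a m : ℕ) :
    ∑ k ∈ range m, gg (q * 2 ^ (a + k)) =
      q * 2 ^ (a + m) / (1 + q * 2 ^ (a + m)) - q * 2 ^ a / (1 + q * 2 ^ a) := by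
  induction m with
  | zero => simp
  | succ m ih =>
    rw [sum_range_succ, ih, gg, ← add_assoc, pow_succ]
    ring_nf

lemma gg_sum2 (q : ℝ) (hq : 0 ≤ q) (N : ℕ) :
    ∑ s ∈ range N, ∑ k : Fin (2 * s + 1), gg (q * 2 ^ (s * s + k)) ≤ 1 := by
  have h : ∑ s ∈ range N, ∑ k : Fin (2 * s + 1), gg (q * 2 ^ (s * s + k)) =
      q * 2 ^ (N * N) / (1 + q * 2 ^ (N * N)) - q / (1 + q) := by
    induction N with
    | zero => simp
    | succ N ih =>
      rw [sum_range_succ, ih, Fin.sum_univ_eq_sum_range (fun k => gg (q * 2 ^ (N * N + k))),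
        gg_sum, show N * N + (2 * N + 1) = (N + 1) * (N + 1) by ring]
      ring
  rw [h]
  have h1 : q * 2 ^ (N * N) / (1 + q * 2 ^ (N * N)) ≤ 1 := by
    rw [div_le_one (by positivity)]; linarith
  have h2 : 0 ≤ q / (1 + q) := by positivity
  linarith

lemma avg_bound {τ : Type} [Fintype τ] (n : ℝ) (hn : 0 < n) (hτ : (Fintype.card τ : ℝ) = n ^ 4)
    (ζ : τ → ℝ) (ρ : ℝ) (hρ : 0 ≤ ρ) (hζ : ∑ t, ζ t ^ 4 ≤ ρ ^ 4) :
    n ^ 2 * ((n ^ 4)⁻¹ * ∑ t, ζ t) ^ 2 ≤ ρ ^ 2 := by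
  have h1 := Finset.sum_mul_sq_le_sq_mul_sq Finset.univ ζ (fun _ => (1 : ℝ))
  have h2 := Finset.sum_mul_sq_le_sq_mul_sq Finset.univ (fun t => ζ t ^ 2) (fun _ => (1 : ℝ))
  simp only [mul_one, one_pow, Finset.sum_const, Finset.card_univ, nsmul_eq_mul, hτ] at h1 h2
  have h6 : ∑ t, (ζ t ^ 2) ^ 2 = ∑ t, ζ t ^ 4 := Finset.sum_congr rfl fun ε _ => by ring
  rw [h6] at h2
  have h3 : (∑ t, ζ t ^ 2) ^ 2 ≤ (ρ ^ 2 * n ^ 2) ^ 2 := by
    calc _ ≤ (∑ t, ζ t ^ 4) * n ^ 4 := h2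
      _ ≤ ρ ^ 4 * n ^ 4 := mul_le_mul_of_nonneg_right hζ (by positivity)
      _ = _ := by ring
  have h4 : ∑ t, ζ t ^ 2 ≤ ρ ^ 2 * n ^ 2 :=
    (pow_le_pow_iff_left₀ (by positivity) (by positivity) (by norm_num)).1 h3
  have h5 : (∑ t, ζ t) ^ 2 ≤ ρ ^ 2 * n ^ 2 * n ^ 4 :=
    h1.trans (mul_le_mul_of_nonneg_right h4 (by positivity))
  calc n ^ 2 * ((n ^ 4)⁻¹ * ∑ t, ζ t) ^ 2 = (n ^ 6)⁻¹ * (∑ t, ζ t) ^ 2 := by field_simp
    _ ≤ (n ^ 6)⁻¹ * (ρ ^ 2 * n ^ 2 * n ^ 4) := mul_le_mul_of_nonneg_left h5 (by positivity)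
    _ = ρ ^ 2 := by field_simp

lemma block {σ τ : Type} [Fintype σ] [Fintype τ] (n : ℝ) (hn : 0 < n)
    (hσ : (Fintype.card σ : ℝ) = n ^ 2) (hτ : (Fintype.card τ : ℝ) = n ^ 4)
    (u : σ → ℝ) (ζ : τ → ℝ) (Aσ : σ → Prop) (Aτ : τ → Prop) [DecidablePred Aσ] [DecidablePred Aτ]
    (t ρ : ℝ) (ht : 0 ≤ t) (hρ : 0 < ρ) (hu : ∑ i, u i ^ 2 ≤ ρ ^ 2) (hζ : ∑ j, ζ j ^ 4 ≤ ρ ^ 4)
    (av : ℝ) (hav : av = (n ^ 4)⁻¹ * ∑ j, ζ j)
    (h1 : ∀ i, Aσ i → t ≤ |u i - av|) (h2 : ∀ i, ¬ Aσ i → |u i - av| ≤ t)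
    (h3 : ∀ j, Aτ j → t ≤ |ζ j|) (h4 : ∀ j, ¬ Aτ j → |ζ j| ≤ t) :
    ∃ m : σ → ℝ, (∀ i, m i ^ 2 ≤ u i ^ 2) ∧
      ∑ i, ((if Aσ i then u i - av else 0) + (n ^ 4)⁻¹ * (∑ j, if Aτ j then ζ j else 0) - m i) ^ 2
        ≤ (24 * ρ * gg (t / ρ * n)) ^ 2 := by
  set q := t / ρ * n with hq
  have hq0 : 0 ≤ q := by positivity
  have hqρ : q * ρ = t * n := by rw [hq]; field_simp
  have hg := gg_nonneg hq0
  have hn4 : 0 < n ^ 4 := by positivity
  rcases le_total q 1 with hs | hl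
  · refine ⟨u, fun i => le_rfl, ?_⟩
    have hb : |(n ^ 4)⁻¹ * (∑ j, if Aτ j then ζ j else 0) - av| ≤ t := by
      rw [hav, ← mul_sub, ← Finset.sum_sub_distrib, abs_mul, abs_of_pos (inv_pos.2 hn4),
        inv_mul_le_iff₀ hn4]
      refine (Finset.abs_sum_le_sum_abs _ _).trans ?_
      have : ∀ j ∈ (Finset.univ : Finset τ), |(if Aτ j then ζ j else 0) - ζ j| ≤ t := by
        intro j _
        split_ifs with h
        · simpa using ht
        · simpa using h4 j h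
      refine (Finset.sum_le_card_nsmul _ _ _ this).trans ?_
      rw [Finset.card_univ, nsmul_eq_mul, hτ]
    have hc : ∀ i ∈ (Finset.univ : Finset σ), ((if Aσ i then u i - av else 0) +
        (n ^ 4)⁻¹ * (∑ j, if Aτ j then ζ j else 0) - u i) ^ 2 ≤ (2 * t) ^ 2 := by
      intro i _
      apply sq_le_sq'
      all_goals
        have hb' := abs_le.1 hb
        split_ifs with h
        · linarith [hb'.1, hb'.2]
        · have := abs_le.1 (h2 i h)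
          linarith [hb'.1, hb'.2, this.1, this.2]
    refine (Finset.sum_le_card_nsmul _ _ _ hc).trans ?_
    rw [Finset.card_univ, nsmul_eq_mul, hσ]
    have h5 := gg_small hq0 hs
    have h6 : 2 * (t * n) ≤ 24 * ρ * gg q := by
      rw [← hqρ]; nlinarith
    calc n ^ 2 * (2 * t) ^ 2 = (2 * (t * n)) ^ 2 := by ring
      _ ≤ _ := pow_le_pow_left₀ (by positivity) h6 2
  · have ht0 : 0 < t := by
      rcases ht.eq_or_lt with h | h
      · rw [hq, ← h] at hl; norm_num at hl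
      · exact h
    have hq1 : 0 < q := by linarith
    refine ⟨fun i => if Aσ i then u i else 0, fun i => ?_, ?_⟩
    · show (if Aσ i then u i else 0) ^ 2 ≤ _
      split_ifs
      · exact le_rfl
      · simpa using sq_nonneg (u i)
    set b := (n ^ 4)⁻¹ * (∑ j, if Aτ j then ζ j else 0) with hbdef
    have hav2 : n ^ 2 * av ^ 2 ≤ ρ ^ 2 := by rw [hav]; exact avg_bound n hn hτ ζ ρ hρ.le hζ
    -- the bound on `b`
    have hb1 : t ^ 3 * |∑ j, if Aτ j then ζ j else 0| ≤ ρ ^ 4 := by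
      refine le_trans (mul_le_mul_of_nonneg_left (Finset.abs_sum_le_sum_abs _ _)
        (by positivity)) (le_trans ?_ hζ)
      rw [Finset.mul_sum]
      refine Finset.sum_le_sum fun j _ => ?_
      split_ifs with h
      · have a1 : t ^ 3 ≤ |ζ j| ^ 3 := pow_le_pow_left₀ ht (h3 j h) 3
        calc t ^ 3 * |ζ j| ≤ |ζ j| ^ 3 * |ζ j| := mul_le_mul_of_nonneg_right a1 (abs_nonneg _)
          _ = (|ζ j| ^ 2) ^ 2 := by ring
          _ = ζ j ^ 4 := by rw [sq_abs]; ring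
      · simp only [abs_zero, mul_zero]; positivity
    have hb2 : q ^ 3 * (n * |b|) ≤ ρ := by
      have e1 : n ^ 4 * |b| = |∑ j, if Aτ j then ζ j else 0| := by
        rw [hbdef, abs_mul, abs_of_pos (inv_pos.2 hn4)]; field_simp
      rw [← e1] at hb1
      have e2 : ρ ^ 3 * (q ^ 3 * (n * |b|)) ≤ ρ ^ 3 * ρ := by
        calc ρ ^ 3 * (q ^ 3 * (n * |b|)) = (q * ρ) ^ 3 * (n * |b|) := by ring
          _ = t ^ 3 * (n ^ 4 * |b|) := by rw [hqρ]; ring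
          _ ≤ ρ ^ 4 := hb1
          _ = _ := by ring
      exact le_of_mul_le_mul_left e2 (by positivity)
    have hb3 : q * (n * |b|) ≤ ρ := by
      refine le_trans (mul_le_mul_of_nonneg_right ?_ (by positivity)) hb2
      calc q = q ^ 1 := (pow_one q).symm
        _ ≤ q ^ 3 := pow_le_pow_right₀ hl (by norm_num)
    have hb4 : q ^ 2 * (n ^ 2 * b ^ 2) ≤ ρ ^ 2 := by
      calc q ^ 2 * (n ^ 2 * b ^ 2) = (q * (n * |b|)) ^ 2 := by rw [← sq_abs b]; ring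
        _ ≤ ρ ^ 2 := pow_le_pow_left₀ (by positivity) hb3 2
    -- the number of large coefficients
    set K := ∑ i, (if Aσ i then (1 : ℝ) else 0) with hK
    have hK0 : 0 ≤ K := Finset.sum_nonneg fun i _ => by split_ifs <;> norm_num
    have hK1 : K * t ^ 2 ≤ 4 * ρ ^ 2 := by
      have a1 : K * t ^ 2 ≤ ∑ i, (2 * u i ^ 2 + 2 * av ^ 2) := by
        rw [hK, Finset.sum_mul]
        refine Finset.sum_le_sum fun i _ => ?_
        split_ifs with h
        · have a2 : t ^ 2 ≤ |u i - av| ^ 2 := pow_le_pow_left₀ ht (h1 i h) 2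
          rw [sq_abs] at a2
          nlinarith [sq_nonneg (u i + av)]
        · simp only [zero_mul]; positivity
      rw [Finset.sum_add_distrib, ← Finset.mul_sum, Finset.sum_const, Finset.card_univ,
        nsmul_eq_mul, hσ] at a1
      nlinarith
    have hK2 : q ^ 2 * (K * av ^ 2) ≤ 4 * ρ ^ 2 := by
      have e2 : ρ ^ 2 * (q ^ 2 * (K * av ^ 2)) ≤ ρ ^ 2 * (4 * ρ ^ 2) := by
        calc ρ ^ 2 * (q ^ 2 * (K * av ^ 2)) = (q * ρ) ^ 2 * (K * av ^ 2) := by ring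
          _ = (K * t ^ 2) * (n ^ 2 * av ^ 2) := by rw [hqρ]; ring
          _ ≤ (4 * ρ ^ 2) * ρ ^ 2 := mul_le_mul hK1 hav2 (by positivity) (by positivity)
          _ = _ := by ring
      exact le_of_mul_le_mul_left e2 (by positivity)
    have hS : ∑ i, ((if Aσ i then u i - av else 0) + b - (if Aσ i then u i else 0)) ^ 2 ≤
        2 * (K * av ^ 2) + 2 * (n ^ 2 * b ^ 2) := by
      have a1 : ∑ i, ((if Aσ i then u i - av else 0) + b - (if Aσ i then u i else 0)) ^ 2 ≤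
          ∑ i, (2 * ((if Aσ i then (1 : ℝ) else 0) * av ^ 2) + 2 * b ^ 2) := by
        refine Finset.sum_le_sum fun i _ => ?_
        split_ifs with h
        · nlinarith [sq_nonneg (b + av)]
        · nlinarith [sq_nonneg b]
      rw [Finset.sum_add_distrib, ← Finset.mul_sum, ← Finset.sum_mul, ← hK, Finset.sum_const,
        Finset.card_univ, nsmul_eq_mul, hσ] at a1
      linarith
    refine hS.trans ?_
    have h5 := gg_large hl
    have h6 : 1 ≤ (6 * gg q * q) ^ 2 := one_le_pow₀ h5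
    have h7 : q ^ 2 * (2 * (K * av ^ 2) + 2 * (n ^ 2 * b ^ 2)) ≤ q ^ 2 * (24 * ρ * gg q) ^ 2 := by
      have : 0 ≤ ρ ^ 2 := by positivity
      calc _ ≤ 16 * ρ ^ 2 * 1 := by nlinarith
        _ ≤ 16 * ρ ^ 2 * (6 * gg q * q) ^ 2 := mul_le_mul_of_nonneg_left h6 (by positivity)
        _ = _ := by ring
    exact le_of_mul_le_mul_left h7 (by positivity)

end Pool.Agent.H533Z.QG
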