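import Mathlib
import Pool.Agent.H533Z.QGBase
import Pool.Agent.H533Z.QGBlock

/-! A quasi-greedy basis of `ℓ₄` whose dual basis is not quasi-greedy. -/

set_option autoImplicit false
set_option linter.unusedSectionVars false

namespace Pool.Agent.H533Z.QG

open Finset

/-- Euclidean indices -/
abbrev HH (s : ℕ) : Type := (k : Fin (2 * s + 1)) × Fin (4 ^ (s * s + k))
/-- indices of the `ℓ₄` blocks -/
abbrev TT (s : ℕ) : Type := (k : Fin (2 * s + 1)) × Fin (16 ^ (s * s + k))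
/-- all indices of the `ℓ₄` blocks -/
abbrev XX : Type := (s : ℕ) × TT s
/-- coordinates -/
abbrev II : Type := Cel HH ⊕ XX
/-- indices of the basis -/
abbrev BB : Type := ((s : ℕ) × HH s) ⊕ II

/-- scale -/
noncomputable def nn (s k : ℕ) : ℝ := 2 ^ (s * s + k)

lemma nn_pos (s k : ℕ) : 0 < nn s k := by unfold nn; positivity

lemma nn_one (s k : ℕ) : 1 ≤ nn s k := one_le_pow₀ (by norm_num)

lemma card4 (s k : ℕ) : (Fintype.card (Fin (4 ^ (s * s + k))) : ℝ) = nn s k ^ 2 := by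
  rw [Fintype.card_fin, nn, ← pow_mul, mul_comm _ 2, pow_mul]; push_cast; norm_num

lemma card16 (s k : ℕ) : (Fintype.card (Fin (16 ^ (s * s + k))) : ℝ) = nn s k ^ 4 := by
  rw [Fintype.card_fin, nn, ← pow_mul, mul_comm _ 4, pow_mul]; push_cast; norm_num

/-- indicator of a block -/
noncomputable def ind (s : ℕ) (k : Fin (2 * s + 1)) : HH s → ℝ := fun a => if a.1 = k then 1 else 0

variable (e : II ≃ ℕ)

/-- average over a block -/
noncomputable def av (s : ℕ) (k : Fin (2 * s + 1)) : EE →L[ℝ] ℝ :=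
  (nn s k ^ 4)⁻¹ • ∑ j : Fin (16 ^ (s * s + k)), zt e (Sum.inr ⟨s, ⟨k, j⟩⟩)

lemma av_apply (s : ℕ) (k : Fin (2 * s + 1)) (y : EE) :
    av e s k y = (nn s k ^ 4)⁻¹ * ∑ j : Fin (16 ^ (s * s + k)), zt e (Sum.inr ⟨s, ⟨k, j⟩⟩) y := by
  simp [av]

/-- the basis -/
noncomputable def xx : BB → EE
  | Sum.inl a => EV e a.1 (Pi.single a.2 1)
  | Sum.inr (Sum.inl c) => EP e c.1.1 c.1.2 (Pi.single c.2 1)
  | Sum.inr (Sum.inr t) => dl e (Sum.inr t) + (nn t.1 t.2.1 ^ 4)⁻¹ • EV e t.1 (ind t.1 t.2.1)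

/-- the coordinate functionals -/
noncomputable def ff : BB → EE →L[ℝ] ℝ
  | Sum.inl a => (ContinuousLinearMap.proj a.2).comp (UU e a.1) - av e a.1 a.2.1
  | Sum.inr (Sum.inl c) => (ContinuousLinearMap.proj c.2).comp (BT e c.1.1 c.1.2)
  | Sum.inr (Sum.inr t) => zt e (Sum.inr t)

lemma xx1 (s : ℕ) (a : HH s) : xx e (Sum.inl ⟨s, a⟩) = EV e s (Pi.single a 1) := rfl
lemma xx2 (c : ℕ × ℕ) (ε : HH c.1 → Bool) :
    xx e (Sum.inr (Sum.inl ⟨c, ε⟩)) = EP e c.1 c.2 (Pi.single ε 1) := rfl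
lemma xx3 (s : ℕ) (t : TT s) : xx e (Sum.inr (Sum.inr ⟨s, t⟩)) =
    dl e (Sum.inr ⟨s, t⟩) + (nn s t.1 ^ 4)⁻¹ • EV e s (ind s t.1) := rfl
lemma ff1 (s : ℕ) (a : HH s) (y : EE) :
    ff e (Sum.inl ⟨s, a⟩) y = UU e s y a - av e s a.1 y := rfl
lemma ff2 (c : ℕ × ℕ) (ε : HH c.1 → Bool) (y : EE) :
    ff e (Sum.inr (Sum.inl ⟨c, ε⟩)) y = BT e c.1 c.2 y ε := rfl
lemma ff3 (t : XX) (y : EE) : ff e (Sum.inr (Sum.inr t)) y = zt e (Sum.inr t) y := rfl

lemma av_EV (s : ℕ) (k : Fin (2 * s + 1)) (s' : ℕ) (w : HH s' → ℝ) : av e s k (EV e s' w) = 0 := by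
  simp [av_apply, zt_EV]

lemma av_EP (s : ℕ) (k : Fin (2 * s + 1)) (s' j : ℕ) (d : (HH s' → Bool) → ℝ) :
    av e s k (EP e s' j d) = 0 := by
  simp [av_apply, zt_EP]

lemma av_dl_ne {s s' : ℕ} (h : s ≠ s') (k : Fin (2 * s + 1)) (t : TT s') :
    av e s k (dl e (Sum.inr ⟨s', t⟩)) = 0 := by
  rw [av_apply, Finset.sum_eq_zero, mul_zero]
  intro j _
  exact zt_dl_ne e fun h' => h (congrArg Sigma.fst (Sum.inr.inj h'))

lemma av_dl (s : ℕ) (k : Fin (2 * s + 1)) (t : TT s) :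
    av e s k (dl e (Sum.inr ⟨s, t⟩)) = if k = t.1 then (nn s t.1 ^ 4)⁻¹ else 0 := by
  obtain ⟨k', j'⟩ := t
  split_ifs with h
  · dsimp only at h
    subst h
    rw [av_apply, Finset.sum_eq_single j', zt_dl_self, mul_one]
    · intro j _ hj
      refine zt_dl_ne e fun h' => hj ?_
      simpa using h'
    · simp
  · rw [av_apply, Finset.sum_eq_zero, mul_zero]
    intro j _
    refine zt_dl_ne e fun h' => h ?_
    simp only [Sum.inr.injEq, Sigma.mk.injEq, heq_eq_eq, true_and] at h'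
    exact h'.1

lemma ff_xx_self (n : BB) : ff e n (xx e n) = 1 := by
  rcases n with ⟨s, a⟩ | ⟨c, ε⟩ | ⟨s, t⟩
  · rw [ff1, xx1, UU_EV_self, av_EV]; simp
  · rw [ff2, xx2, BT_EP_self]; simp
  · rw [ff3, xx3, map_add, map_smul, zt_EV, zt_dl_self]; simp

lemma ff_xx_ne {m n : BB} (h : m ≠ n) : ff e m (xx e n) = 0 := by
  rcases m with ⟨s, a⟩ | ⟨c, ε⟩ | t <;> rcases n with ⟨s', a'⟩ | ⟨c', ε'⟩ | ⟨s', t'⟩
  · rw [ff1, xx1, av_EV, sub_zero]
    by_cases hs : s = s'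
    · subst hs
      rw [UU_EV_self, Pi.single_eq_of_ne]
      intro h'; exact h (by rw [h'])
    · rw [UU_EV_ne e hs]; rfl
  · rw [ff1, xx2, av_EP, UU_EP]; simp
  · rw [ff1, xx3, map_add, map_add, map_smul, map_smul, av_EV, UU_dl]
    by_cases hs : s = s'
    · subst hs
      rw [UU_EV_self, av_dl]
      by_cases hk : a.1 = t'.1 <;> simp [ind, hk]
    · rw [UU_EV_ne e hs, av_dl_ne e hs]; simp
  · rw [ff2, xx1, BT_EV]; rfl
  · rw [ff2, xx2]
    by_cases hc : c = c'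
    · subst hc
      rw [BT_EP_self, Pi.single_eq_of_ne]
      intro h'; exact h (by rw [h'])
    · rw [BT_EP_ne e (s := c.1) (j := c.2) (s' := c'.1) (j' := c'.2) hc]; rfl
  · rw [ff2, xx3, map_add, map_smul, BT_EV, BT_dl]; simp
  · rw [ff3, xx1, zt_EV]
  · rw [ff3, xx2, zt_EP]
  · rw [ff3, xx3, map_add, map_smul, zt_EV, zt_dl_ne]
    · simp
    · intro h'; exact h (by rw [h'])

lemma sum_single {ι : Type} [Fintype ι] [DecidableEq ι] (L : (ι → ℝ) →ₗ[ℝ] EE) (w : ι → ℝ) :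
    ∑ a, w a • L (Pi.single a 1) = L w := by
  simp_rw [← map_smul]
  rw [← map_sum]
  congr 1
  funext b
  simp [Finset.sum_apply, Pi.single_apply]

lemma xx_dense : Dense (Submodule.span ℝ (Set.range (xx e)) : Set EE) := by
  have h1 : ∀ s w, EV e s w ∈ Submodule.span ℝ (Set.range (xx e)) := by
    intro s w
    rw [← sum_single]
    exact Submodule.sum_mem _ fun a _ => Submodule.smul_mem _ _
      (Submodule.subset_span ⟨Sum.inl ⟨s, a⟩, rfl⟩)
  refine dense_of_level1 e _ h1 ?_ ?_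
  · intro s j d
    rw [← sum_single]
    exact Submodule.sum_mem _ fun ε _ => Submodule.smul_mem _ _
      (Submodule.subset_span ⟨Sum.inr (Sum.inl ⟨(s, j), ε⟩), rfl⟩)
  · rintro ⟨s, t⟩
    have h2 : xx e (Sum.inr (Sum.inr ⟨s, t⟩)) ∈ Submodule.span ℝ (Set.range (xx e)) :=
      Submodule.subset_span ⟨_, rfl⟩
    have h3 := Submodule.sub_mem _ h2 (Submodule.smul_mem _ (nn s t.1 ^ 4)⁻¹ (h1 s (ind s t.1)))
    rwa [xx3, add_sub_cancel_right] at h3

lemma EV_one (s : ℕ) (w : HH s → ℝ) (Y : ℝ) (hY : 0 ≤ Y) (h : ∑ a, w a ^ 2 ≤ Y ^ 2) :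
    ‖EV e s w‖ ≤ 2 * Y := by
  have h0 := place_bound e 0 ({(s, 0)} : Finset (ℕ × ℕ))
    (fun c => if hc : c.1 = s then hc ▸ RR w else 0)
  simp only [Finset.sum_singleton, add_zero, dif_pos] at h0
  have h1 := RR_bound w
  have h2 : (∑ a, w a ^ 2) ^ 2 ≤ (Y ^ 2) ^ 2 := pow_le_pow_left₀ (by positivity) h 2
  refine root4 (by positivity) (h0.trans (h1.trans ?_))
  have : 0 ≤ Y ^ 4 := by positivity
  nlinarith

lemma UU_one (s : ℕ) (y : EE) : ∑ a, (UU e s y a) ^ 2 ≤ ‖y‖ ^ 2 := by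
  have h := UU_bound e {s} y
  rw [Finset.sum_singleton, show ‖y‖ ^ 4 = (‖y‖ ^ 2) ^ 2 by ring] at h
  exact (pow_le_pow_iff_left₀ (by positivity) (by positivity) (by norm_num)).1 h

lemma UU_blk (s : ℕ) (k : Fin (2 * s + 1)) (y : EE) :
    ∑ i, (UU e s y ⟨k, i⟩) ^ 2 ≤ ‖y‖ ^ 2 := by
  refine le_trans ?_ (UU_one e s y)
  rw [Fintype.sum_sigma]
  exact Finset.single_le_sum (f := fun k => ∑ i, (UU e s y ⟨k, i⟩) ^ 2)
    (fun k _ => by positivity) (Finset.mem_univ k)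

lemma zt_blk (s : ℕ) (k : Fin (2 * s + 1)) (y : EE) :
    ∑ j, (zt e (Sum.inr ⟨s, ⟨k, j⟩⟩) y) ^ 4 ≤ ‖y‖ ^ 4 :=
  zt_bound e (fun j => Sum.inr ⟨s, ⟨k, j⟩⟩) (fun j j' h => by simpa using h) Finset.univ y

lemma sum_ind (s : ℕ) (k : Fin (2 * s + 1)) : ∑ a, ind s k a ^ 2 = nn s k ^ 2 := by
  rw [Fintype.sum_sigma, Finset.sum_eq_single k]
  · simp only [ind, if_true, one_pow, Finset.sum_const, Finset.card_univ, nsmul_eq_mul, mul_one]
    exact card4 s k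
  · intro k' _ h
    simp [ind, h]
  · simp

lemma xx_norm (n : BB) : ‖xx e n‖ ≤ 5 := by
  rcases n with ⟨s, a⟩ | ⟨c, ε⟩ | ⟨s, t⟩
  · rw [xx1]
    have := EV_one e s (Pi.single a 1) 1 zero_le_one (by simp [Pi.single_apply])
    linarith
  · rw [xx2]
    have := EP_bound e {c} (fun c' => if hc : c' = c then hc ▸ Pi.single ε 1 else 0) 1 zero_le_one
      (by simp [Pi.single_apply])
    simpa using this
  · rw [xx3]
    have h1 : ‖dl e (Sum.inr ⟨s, t⟩)‖ ≤ 1 := by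
      have := dl_bound e (fun _ : Unit => (Sum.inr ⟨s, t⟩ : II))
        (fun a b _ => Subsingleton.elim a b) Finset.univ (fun _ => 1)
      refine root4 zero_le_one ?_
      simpa using this
    have h2 := EV_one e s (ind s t.1) (nn s t.1) (nn_pos _ _).le (sum_ind s t.1).le
    have h3 : ‖(nn s t.1 ^ 4)⁻¹ • EV e s (ind s t.1)‖ ≤ 2 := by
      have hp := nn_pos s t.1
      rw [norm_smul, Real.norm_eq_abs, abs_of_pos (by positivity), inv_mul_le_iff₀ (by positivity)]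
      have : nn s t.1 ^ 1 ≤ nn s t.1 ^ 4 := pow_le_pow_right₀ (nn_one _ _) (by norm_num)
      linarith
    have := norm_add_le (dl e (Sum.inr ⟨s, t⟩)) ((nn s t.1 ^ 4)⁻¹ • EV e s (ind s t.1))
    linarith

lemma ff_norm (n : BB) : ‖ff e n‖ ≤ 5 := by
  refine ContinuousLinearMap.opNorm_le_bound _ (by norm_num) fun y => ?_
  have hy := norm_nonneg y
  rw [Real.norm_eq_abs]
  rcases n with ⟨s, a⟩ | ⟨c, ε⟩ | t
  · rw [ff1]
    have h1 : (UU e s y a) ^ 2 ≤ ‖y‖ ^ 2 :=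
      le_trans (Finset.single_le_sum (f := fun a => (UU e s y a) ^ 2) (fun a _ => by positivity)
        (Finset.mem_univ a)) (UU_one e s y)
    have h2 := avg_bound (nn s a.1) (nn_pos _ _) (card16 s a.1) _ _ hy (zt_blk e s a.1 y)
    rw [← av_apply] at h2
    have h3 : (av e s a.1 y) ^ 2 ≤ ‖y‖ ^ 2 := by
      have : 1 ≤ nn s a.1 ^ 2 := one_le_pow₀ (nn_one _ _)
      nlinarith [sq_nonneg (av e s a.1 y)]
    have h4 := abs_le_of_sq_le_sq' h1 hy
    have h5 := abs_le_of_sq_le_sq' h3 hy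
    rw [abs_le]; constructor <;> linarith [h4.1, h4.2, h5.1, h5.2]
  · rw [ff2]
    have h1 := BT_bound e {c} y
    rw [Finset.sum_singleton] at h1
    have h2 : (BT e c.1 c.2 y ε) ^ 4 ≤ (4 * ‖y‖) ^ 4 :=
      le_trans (Finset.single_le_sum (f := fun ε => (BT e c.1 c.2 y ε) ^ 4)
        (fun a _ => by positivity) (Finset.mem_univ ε)) h1
    have := root4.abs_le_of_pow_le h2 (by positivity)
    linarith
  · rw [ff3]
    have h1 := zt_bound e (fun _ : Unit => (Sum.inr t : II))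
        (fun a b _ => Subsingleton.elim a b) Finset.univ y
    have h2 : (zt e (Sum.inr t) y) ^ 4 ≤ ‖y‖ ^ 4 := by simpa using h1
    have := root4.abs_le_of_pow_le h2 hy
    linarith

end Pool.Agent.H533Z.QG
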