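import Mathlib
import Pool.Agent.H533Z.QGMain

/-! The greedy estimate, and its failure for the dual system. -/

set_option autoImplicit false
set_option linter.unusedSectionVars false

namespace Pool.Agent.H533Z.QG

open Finset

/-- size of an index -/
def sz : BB → ℕ
  | Sum.inl a => a.1
  | Sum.inr (Sum.inl c) => max c.1.1 c.1.2
  | Sum.inr (Sum.inr t) => t.1

/-- exhausting finite sets -/
def Om (N : ℕ) : Finset BB :=
  ((range N).sigma fun _ => univ).disjSum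
    (((range N ×ˢ range N).sigma fun _ => univ).disjSum ((range N).sigma fun _ => univ))

lemma mem_Om {N : ℕ} {n : BB} (h : sz n < N) : n ∈ Om N := by
  rcases n with ⟨s, a⟩ | ⟨c, ε⟩ | ⟨s, t⟩
  · simpa [Om, sz] using h
  · simpa [Om, sz] using h
  · simpa [Om, sz] using h

variable (e : II ≃ ℕ)

lemma sum_ind_smul (s : ℕ) (c : TT s → ℝ) :
    ∑ t : TT s, c t • (nn s t.1 ^ 4)⁻¹ • EV e s (ind s t.1) =
      EV e s (fun a => (nn s a.1 ^ 4)⁻¹ * ∑ j, c ⟨a.1, j⟩) := by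
  simp_rw [← map_smul]
  rw [← map_sum]
  congr 1
  funext a
  rw [Finset.sum_apply, Fintype.sum_sigma, Finset.sum_eq_single a.1]
  · simp [ind, Finset.mul_sum, mul_comm]
  · intro k _ hk
    simp [ind, Ne.symm hk]
  · simp

lemma sum_Om (N : ℕ) (c : BB → ℝ) :
    ∑ n ∈ Om N, c n • xx e n =
      ∑ s ∈ range N, EV e s (fun a => c (Sum.inl ⟨s, a⟩) +
          (nn s a.1 ^ 4)⁻¹ * ∑ j, c (Sum.inr (Sum.inr ⟨s, ⟨a.1, j⟩⟩))) +
        ∑ p ∈ range N ×ˢ range N, EP e p.1 p.2 (fun ε => c (Sum.inr (Sum.inl ⟨p, ε⟩))) +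
        ∑ t ∈ ((range N).sigma fun _ => univ : Finset XX),
          c (Sum.inr (Sum.inr t)) • dl e (Sum.inr t) := by
  rw [Om, Finset.sum_disjSum, Finset.sum_disjSum, Finset.sum_sigma, Finset.sum_sigma,
    Finset.sum_sigma, Finset.sum_sigma]
  simp only [xx1, xx2, xx3, smul_add, Finset.sum_add_distrib, sum_single]
  have h1 : ∀ s, ∑ t : TT s, c (Sum.inr (Sum.inr ⟨s, t⟩)) • (nn s t.1 ^ 4)⁻¹ • EV e s (ind s t.1)
      = _ := fun s => sum_ind_smul e s (fun t => c (Sum.inr (Sum.inr ⟨s, t⟩)))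
  simp only [h1]
  have h2 : ∀ s, EV e s (fun a => c (Sum.inl ⟨s, a⟩) +
          (nn s a.1 ^ 4)⁻¹ * ∑ j, c (Sum.inr (Sum.inr ⟨s, ⟨a.1, j⟩⟩))) =
      EV e s (fun a => c (Sum.inl ⟨s, a⟩)) + EV e s (fun a =>
          (nn s a.1 ^ 4)⁻¹ * ∑ j, c (Sum.inr (Sum.inr ⟨s, ⟨a.1, j⟩⟩))) := by
    intro s; rw [← map_add]; rfl
  simp only [h2, Finset.sum_add_distrib]
  abel

theorem greedy (y : EE) (A : Finset BB) (hA : ∀ n ∈ A, ∀ k ∉ A, |ff e k y| ≤ |ff e n y|) :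
    ‖∑ n ∈ A, ff e n y • xx e n‖ ≤ 100 * ‖y‖ := by
  classical
  rcases (norm_nonneg y).eq_or_lt with hy | hy
  · have : y = 0 := norm_eq_zero.1 hy.symm
    subst this; simp
  rcases A.eq_empty_or_nonempty with rfl | hne
  · simp
  obtain ⟨n₀, hn₀, hmin⟩ := Finset.exists_min_image A (fun n => |ff e n y|) hne
  set t := |ff e n₀ y| with ht
  have ht0 : 0 ≤ t := abs_nonneg _
  have hlo : ∀ k ∉ A, |ff e k y| ≤ t := fun k hk => hA n₀ hn₀ k hk
  set N := A.sup sz + 1 with hN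
  have hsub : A ⊆ Om N := fun n hn => mem_Om (Nat.lt_succ_of_le (Finset.le_sup (f := sz) hn))
  set c : BB → ℝ := fun n => if n ∈ A then ff e n y else 0 with hc
  have hG : ∑ n ∈ A, ff e n y • xx e n = ∑ n ∈ Om N, c n • xx e n := by
    rw [← Finset.sum_subset hsub]
    · exact Finset.sum_congr rfl fun n hn => by simp [hc, hn]
    · intro n _ hn; simp [hc, hn]
  have hc4 : ∀ n, c n ^ 4 ≤ ff e n y ^ 4 := by
    intro n
    simp only [hc]
    split_ifs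
    · exact le_rfl
    · simp only [ne_eq, OfNat.ofNat_ne_zero, not_false_eq_true, zero_pow]; positivity
  rw [hG, sum_Om]
  have hblk := fun (s : ℕ) (k : Fin (2 * s + 1)) =>
    block (nn s k) (nn_pos s k) (card4 s k) (card16 s k) (fun i => UU e s y ⟨k, i⟩)
      (fun j => zt e (Sum.inr ⟨s, ⟨k, j⟩⟩) y) (fun i => (Sum.inl ⟨s, ⟨k, i⟩⟩ : BB) ∈ A)
      (fun j => (Sum.inr (Sum.inr ⟨s, ⟨k, j⟩⟩) : BB) ∈ A) t ‖y‖ ht0 hy (UU_blk e s k y)
      (zt_blk e s k y) (av e s k y) (av_apply e s k y)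
      (fun i hi => hmin _ hi) (fun i hi => hlo _ hi) (fun j hj => hmin _ hj) (fun j hj => hlo _ hj)
  choose m hm1 hm2 using hblk
  set h : (s : ℕ) → HH s → ℝ := fun s a => c (Sum.inl ⟨s, a⟩) +
    (nn s a.1 ^ 4)⁻¹ * ∑ j, c (Sum.inr (Sum.inr ⟨s, ⟨a.1, j⟩⟩)) with hh
  set M : (s : ℕ) → HH s → ℝ := fun s a => m s a.1 a.2 with hM
  have hsplit : ∑ s ∈ range N, EV e s (h s) =
      ∑ s ∈ range N, EV e s (M s) + ∑ s ∈ range N, EV e s (h s - M s) := by
    rw [← Finset.sum_add_distrib]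
    exact Finset.sum_congr rfl fun s _ => by rw [← map_add, add_sub_cancel]
  have b1 : ‖∑ s ∈ range N, EV e s (M s)‖ ≤ 2 * ‖y‖ := by
    refine root4 (by positivity) ((EV_bound e _ M).trans ?_)
    have a1 : ∑ s ∈ range N, (∑ a, M s a ^ 2) ^ 2 ≤ ∑ s ∈ range N, (∑ a, (UU e s y a) ^ 2) ^ 2 :=
      Finset.sum_le_sum fun s _ => pow_le_pow_left₀ (by positivity)
        (Finset.sum_le_sum fun a _ => hm1 s a.1 a.2) 2
    have a2 := UU_bound e (range N) y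
    have : 0 ≤ ‖y‖ ^ 4 := by positivity
    nlinarith
  have hq : 0 ≤ t / ‖y‖ := by positivity
  have b2 : ‖∑ s ∈ range N, EV e s (h s - M s)‖ ≤ 48 * ‖y‖ := by
    refine (norm_sum_le _ _).trans ?_
    have a1 : ∀ s ∈ range N, ‖EV e s (h s - M s)‖ ≤
        2 * ∑ k : Fin (2 * s + 1), 24 * ‖y‖ * gg (t / ‖y‖ * nn s k) := by
      intro s _
      have g0 : ∀ k : Fin (2 * s + 1), 0 ≤ 24 * ‖y‖ * gg (t / ‖y‖ * nn s k) := fun k =>
        mul_nonneg (by positivity) (gg_nonneg (mul_nonneg hq (nn_pos s k).le))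
      refine EV_one e s _ _ (Finset.sum_nonneg fun k _ => g0 k) ?_
      rw [Fintype.sum_sigma]
      refine le_trans (Finset.sum_le_sum fun k _ => ?_)
        (Finset.sum_sq_le_sq_sum_of_nonneg fun k _ => g0 k)
      exact hm2 s k
    refine (Finset.sum_le_sum a1).trans ?_
    simp_rw [← Finset.mul_sum]
    have a2 := gg_sum2 (t / ‖y‖) hq N
    have a3 : ∑ s ∈ range N, ∑ k : Fin (2 * s + 1), gg (t / ‖y‖ * nn s k) ≤ 1 := a2
    nlinarith
  have b3 : ‖∑ p ∈ range N ×ˢ range N,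
      EP e p.1 p.2 (fun ε => c (Sum.inr (Sum.inl ⟨p, ε⟩)))‖ ≤ 5 * (4 * ‖y‖) := by
    refine EP_bound e _ (fun p ε => c (Sum.inr (Sum.inl ⟨p, ε⟩))) _ (by positivity) ?_
    refine le_trans ?_ (BT_bound e (range N ×ˢ range N) y)
    exact Finset.sum_le_sum fun p _ => Finset.sum_le_sum fun ε _ => hc4 _
  have b4 : ‖∑ t ∈ ((range N).sigma fun _ => univ : Finset XX),
      c (Sum.inr (Sum.inr t)) • dl e (Sum.inr t)‖ ≤ ‖y‖ := by
    refine root4 hy.le ((dl_bound e Sum.inr Sum.inr_injective _ _).trans ?_)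
    refine le_trans ?_ (zt_bound e Sum.inr Sum.inr_injective
      ((range N).sigma fun _ => univ : Finset XX) y)
    exact Finset.sum_le_sum fun p _ => hc4 _
  rw [hsplit]
  refine (norm_add_le _ _).trans ?_
  have c1 := norm_add_le (∑ s ∈ range N, EV e s (M s) + ∑ s ∈ range N, EV e s (h s - M s))
    (∑ p ∈ range N ×ˢ range N, EP e p.1 p.2 (fun ε => c (Sum.inr (Sum.inl ⟨p, ε⟩))))
  have c2 := norm_add_le (∑ s ∈ range N, EV e s (M s)) (∑ s ∈ range N, EV e s (h s - M s))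
  linarith

/-- the test functional -/
noncomputable def gt (s : ℕ) : EE →L[ℝ] ℝ :=
  ∑ a : HH s, (nn s a.1)⁻¹ • (ContinuousLinearMap.proj a).comp (UU e s)

lemma gt_apply (s : ℕ) (y : EE) : gt e s y = ∑ a : HH s, (nn s a.1)⁻¹ * UU e s y a := by
  simp [gt]

lemma sum_inv_sq (s : ℕ) : ∑ a : HH s, ((nn s a.1)⁻¹) ^ 2 = 2 * s + 1 := by
  rw [Fintype.sum_sigma]
  have : ∀ k : Fin (2 * s + 1), ∑ _i : Fin (4 ^ (s * s + k)), ((nn s k)⁻¹) ^ 2 = 1 := by
    intro k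
    rw [Finset.sum_const, Finset.card_univ, nsmul_eq_mul, card4]
    have := nn_pos s k
    field_simp
  simp only [this]
  simp

lemma gt_norm (s : ℕ) : ‖gt e s‖ ≤ Real.sqrt (2 * s + 1) := by
  refine ContinuousLinearMap.opNorm_le_bound _ (Real.sqrt_nonneg _) fun y => ?_
  rw [Real.norm_eq_abs, gt_apply]
  refine abs_le_of_sq_le_sq ?_ (by positivity)
  refine (Finset.sum_mul_sq_le_sq_mul_sq _ _ _).trans ?_
  rw [sum_inv_sq, mul_pow, Real.sq_sqrt (by positivity)]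
  exact mul_le_mul_of_nonneg_left (UU_one e s y) (by positivity)

lemma gt_xx1 (s : ℕ) (a : HH s) : gt e s (xx e (Sum.inl ⟨s, a⟩)) = (nn s a.1)⁻¹ := by
  rw [gt_apply, xx1, UU_EV_self]
  simp [Pi.single_apply]

lemma nn_le {s : ℕ} (hs : 1 ≤ s) (k k' : Fin (2 * s + 1)) : nn s k ≤ nn s k' ^ 3 := by
  unfold nn
  rw [← pow_mul]
  refine pow_le_pow_right₀ (by norm_num) ?_
  have := k.2
  nlinarith

lemma gt_small {s : ℕ} (hs : 1 ≤ s) (k : Fin (2 * s + 1)) (n : BB)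
    (hn : ∀ a : HH s, n ≠ Sum.inl ⟨s, a⟩) : |gt e s (xx e n)| ≤ (nn s k)⁻¹ := by
  have hp := nn_pos s k
  rcases n with ⟨s', a⟩ | ⟨c, ε⟩ | ⟨s', t⟩
  · have h : s ≠ s' := by rintro rfl; exact hn a rfl
    rw [gt_apply, xx1, UU_EV_ne e h]
    simp [hp.le]
  · rw [gt_apply, xx2, UU_EP]
    simp [hp.le]
  · rw [gt_apply, xx3, map_add, map_smul, UU_dl]
    by_cases h : s = s'
    · subst h
      rw [UU_EV_self, Fintype.sum_sigma, Finset.sum_eq_single t.1]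
      · simp only [ind, zero_add, Pi.smul_apply, if_true, smul_eq_mul, mul_one, Finset.sum_const,
          Finset.card_univ, nsmul_eq_mul]
        rw [card4]
        have hp' := nn_pos s t.1
        rw [abs_of_pos (by positivity), show nn s t.1 ^ 2 * ((nn s t.1)⁻¹ * (nn s t.1 ^ 4)⁻¹) =
          (nn s t.1 ^ 3)⁻¹ by field_simp]
        exact inv_anti₀ hp (nn_le hs k t.1)
      · intro k' _ hk
        simp [ind, hk]
      · simp
    · rw [UU_EV_ne e h]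
      simp [hp.le]

/-- the test vector -/
noncomputable def yt (s : ℕ) : EE := ∑ t : TT s, (nn s t.1)⁻¹ • dl e (Sum.inr ⟨s, t⟩)

lemma yt_norm (s : ℕ) : ‖yt e s‖ ^ 4 ≤ 2 * s + 1 := by
  refine (dl_bound e (fun t : TT s => (Sum.inr ⟨s, t⟩ : II)) (fun a b h => by simpa using h)
    Finset.univ (fun t => (nn s t.1)⁻¹)).trans ?_
  rw [Fintype.sum_sigma]
  have : ∀ k : Fin (2 * s + 1), ∑ _i : Fin (16 ^ (s * s + k)), ((nn s k)⁻¹) ^ 4 = 1 := by
    intro k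
    rw [Finset.sum_const, Finset.card_univ, nsmul_eq_mul, card16]
    have := nn_pos s k
    field_simp
  simp only [this]
  simp

lemma ff_yt (s : ℕ) (a : HH s) : ff e (Sum.inl ⟨s, a⟩) (yt e s) = -(nn s a.1)⁻¹ := by
  rw [ff1, yt, map_sum, map_sum]
  simp only [map_smul, UU_dl, av_dl, smul_zero, Finset.sum_const_zero, Pi.zero_apply, zero_sub,
    neg_inj]
  rw [Fintype.sum_sigma, Finset.sum_eq_single a.1]
  · simp only [if_true, smul_eq_mul, Finset.sum_const, Finset.card_univ, nsmul_eq_mul]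
    rw [card16]
    have := nn_pos s a.1
    field_simp
  · intro k _ hk
    simp [Ne.symm hk]
  · simp

theorem not_dual (C : ℝ) : ∃ (g : EE →L[ℝ] ℝ) (A : Finset BB),
    (∀ n ∈ A, ∀ k ∉ A, |g (xx e k)| ≤ |g (xx e n)|) ∧
      ¬ ‖∑ n ∈ A, g (xx e n) • ff e n‖ ≤ C * ‖g‖ := by
  classical
  obtain ⟨s, hs⟩ := exists_nat_gt (C ^ 4)
  have hs0 : (0 : ℝ) < s := lt_of_le_of_lt (by positivity) hs
  have hs1 : 1 ≤ s := Nat.one_le_iff_ne_zero.2 (by rintro rfl; simp at hs0)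
  have hinj : Function.Injective (fun a : HH s => (Sum.inl ⟨s, a⟩ : BB)) :=
    fun a b h => by simpa using h
  refine ⟨gt e s, Finset.univ.map ⟨_, hinj⟩, ?_, ?_⟩
  · intro n hn k hk
    obtain ⟨a, -, rfl⟩ := Finset.mem_map.1 hn
    simp only [Function.Embedding.coeFn_mk]
    rw [gt_xx1, abs_of_pos (inv_pos.2 (nn_pos s a.1))]
    refine gt_small e hs1 a.1 k fun a' h => hk ?_
    exact Finset.mem_map.2 ⟨a', Finset.mem_univ _, h.symm⟩
  · intro h
    rw [Finset.sum_map] at h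
    simp only [Function.Embedding.coeFn_mk, gt_xx1] at h
    have h1 := (∑ a : HH s, (nn s a.1)⁻¹ • ff e (Sum.inl ⟨s, a⟩)).le_opNorm (yt e s)
    have h2 : (∑ a : HH s, (nn s a.1)⁻¹ • ff e (Sum.inl ⟨s, a⟩)) (yt e s) = -(2 * s + 1) := by
      rw [← sum_inv_sq, ← Finset.sum_neg_distrib, ContinuousLinearMap.sum_apply]
      refine Finset.sum_congr rfl fun a _ => ?_
      rw [ContinuousLinearMap.smul_apply, ff_yt, smul_eq_mul]; ring
    rw [h2, norm_neg, Real.norm_eq_abs, abs_of_pos (by positivity)] at h1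
    have h3 := gt_norm e s
    have h4 := yt_norm e s
    set m : ℝ := 2 * s + 1 with hm
    have hm0 : 0 < m := by positivity
    have h5 : m ≤ |C| * Real.sqrt m * ‖yt e s‖ := by
      refine h1.trans (mul_le_mul_of_nonneg_right (h.trans ?_) (norm_nonneg _))
      exact mul_le_mul (le_abs_self C) h3 (norm_nonneg _) (abs_nonneg _)
    have h6 : m ^ 4 ≤ (|C| * Real.sqrt m * ‖yt e s‖) ^ 4 := pow_le_pow_left₀ hm0.le h5 4
    have h7 : (|C| * Real.sqrt m * ‖yt e s‖) ^ 4 = C ^ 4 * m ^ 2 * ‖yt e s‖ ^ 4 := by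
      have a1 : |C| ^ 4 = C ^ 4 := by
        rw [show (4 : ℕ) = 2 * 2 from rfl, pow_mul, sq_abs, ← pow_mul]
      have a2 : Real.sqrt m ^ 4 = m ^ 2 := by
        rw [show (4 : ℕ) = 2 * 2 from rfl, pow_mul, Real.sq_sqrt hm0.le]
      rw [mul_pow, mul_pow, a1, a2]
    have h8 : m ^ 3 * m ≤ m ^ 3 * C ^ 4 := by
      calc m ^ 3 * m = m ^ 4 := by ring
        _ ≤ C ^ 4 * m ^ 2 * ‖yt e s‖ ^ 4 := h7 ▸ h6
        _ ≤ C ^ 4 * m ^ 2 * m := mul_le_mul_of_nonneg_left h4 (by positivity)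
        _ = _ := by ring
    have h9 := le_of_mul_le_mul_left h8 (by positivity)
    linarith

instance : Infinite II :=
  Infinite.of_injective (fun j : ℕ => (Sum.inl ⟨(0, j), fun _ => true⟩ : II))
    (fun a b h => by
      have := congrArg Sigma.fst (Sum.inl.inj h)
      exact congrArg Prod.snd this)

theorem main : ∃ (x : ℕ → EE) (f : ℕ → (EE →L[ℝ] ℝ)),
    (∀ m n : ℕ, f m (x n) = if m = n then 1 else 0) ∧
    Dense (Submodule.span ℝ (Set.range x) : Set EE) ∧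
    (∃ M : ℝ, ∀ n : ℕ, ‖x n‖ ≤ M ∧ ‖f n‖ ≤ M) ∧
    (∃ C : ℝ, ∀ (y : EE) (A : Finset ℕ), (∀ n ∈ A, ∀ k ∉ A, |f k y| ≤ |f n y|) →
      ‖∑ n ∈ A, f n y • x n‖ ≤ C * ‖y‖) ∧
    ¬ (∃ C : ℝ, ∀ (g : EE →L[ℝ] ℝ) (A : Finset ℕ), (∀ n ∈ A, ∀ k ∉ A, |g (x k)| ≤ |g (x n)|) →
      ‖∑ n ∈ A, g (x n) • f n‖ ≤ C * ‖g‖) := by
  obtain ⟨e⟩ : Nonempty (II ≃ ℕ) := nonempty_equiv_of_countable
  obtain ⟨b⟩ : Nonempty (ℕ ≃ BB) := nonempty_equiv_of_countable
  refine ⟨fun n => xx e (b n), fun n => ff e (b n), ?_, ?_, ⟨5, fun n => ⟨xx_norm e _,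
    ff_norm e _⟩⟩, ⟨100, fun y A hA => ?_⟩, ?_⟩
  · intro m n
    split_ifs with h
    · subst h; exact ff_xx_self e _
    · exact ff_xx_ne e fun h' => h (b.injective h')
  · have : Set.range (fun n => xx e (b n)) = Set.range (xx e) :=
      b.surjective.range_comp (xx e)
    rw [this]; exact xx_dense e
  · have := greedy e y (A.map b.toEmbedding) (by
      intro n hn k hk
      obtain ⟨n', hn', rfl⟩ := Finset.mem_map.1 hn
      obtain ⟨k', rfl⟩ := b.surjective k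
      exact hA n' hn' k' fun h => hk (Finset.mem_map.2 ⟨k', h, rfl⟩))
    rwa [Finset.sum_map] at this
  · rintro ⟨C, hC⟩
    obtain ⟨g, A, h1, h2⟩ := not_dual e C
    have := hC g (A.map b.symm.toEmbedding) (by
      intro n hn k hk
      obtain ⟨n', hn', rfl⟩ := Finset.mem_map.1 hn
      have := h1 n' hn' (b k) fun h => hk (Finset.mem_map.2 ⟨b k, h, by simp⟩)
      simpa using this)
    rw [Finset.sum_map] at this
    apply h2
    simpa using this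

end Pool.Agent.H533Z.QG
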