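import Mathlib

/-! Ordered Ramsey numbers of monotone paths, for all colourings and for transitive colourings. -/

set_option autoImplicit false

namespace Pool.Agent.H533Z.TR

/-- the set `{x_j, x_{j+1}, …, x_{j+k-1}}` (indices start at `0`) -/
def edge {m N : ℕ} (x : Fin m → Fin N) (j k : ℕ) : Finset (Fin N) :=
  (Finset.univ.filter (fun t : Fin m => j ≤ t.val ∧ t.val < j + k)).image x

/-- the colouring `c` (only its values on `k`-element sets matter) has a monochromatic monotone
path of length `n`: vertices `x_0 < ⋯ < x_{n+k-2}` whose `n` sets of `k` consecutive vertices all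
have the same colour -/
def HasMonoPath (k n : ℕ) {q N : ℕ} (c : Finset (Fin N) → Fin q) : Prop :=
  ∃ x : Fin (n + k - 1) → Fin N, StrictMono x ∧ ∃ i : Fin q, ∀ j < n, c (edge x j k) = i

/-- transitive colourings: if the first `k` and the last `k` of `k + 1` vertices have colour `i`,
then all `k`-subsets of the `k + 1` vertices have colour `i` -/
def IsTransitive (k : ℕ) {q N : ℕ} (c : Finset (Fin N) → Fin q) : Prop :=
  ∀ x : Fin (k + 1) → Fin N, StrictMono x → ∀ i : Fin q,
    c (edge x 0 k) = i → c (edge x 1 k) = i →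
      ∀ s : Finset (Fin N), s ⊆ Finset.univ.image x → s.card = k → c s = i

/-- `N_k(q, n)` -/
noncomputable def pathNumber (k q n : ℕ) : ℕ :=
  sInf {N : ℕ | ∀ c : Finset (Fin N) → Fin q, HasMonoPath k n c}

/-- `N'_k(q, n)` -/
noncomputable def transPathNumber (k q n : ℕ) : ℕ :=
  sInf {N : ℕ | ∀ c : Finset (Fin N) → Fin q, IsTransitive k c → HasMonoPath k n c}

end Pool.Agent.H533Z.TR
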