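import Mathlib
import Pool.Agent.H533Z.TRDefs

set_option autoImplicit false

namespace Pool.Agent.H533Z.TR

open Finset

/-- labels of triples -/
abbrev P : Type := Fin 3 → Fin 5
/-- labels of pairs -/
abbrev L : Type := LowerSet P
/-- labels of vertices -/
abbrev LL : Type := LowerSet L

instance : Finite L := Finite.of_injective (fun D : L => (D : Set P)) SetLike.coe_injective
instance : Finite LL := Finite.of_injective (fun D : LL => (D : Set L)) SetLike.coe_injective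

section labels

variable {V : Type} [LinearOrder V] (c : V → V → V → V → Fin 3)

/-- a path of colour `i` and length `r` ends in the triple -/
def Ends (i : Fin 3) : ℕ → V → V → V → Prop
  | 0, _, _, _ => True
  | r + 1, x, y, z => ∃ w, w < x ∧ c w x y z = i ∧ Ends i r w x y

open Classical in
/-- label of a triple -/
noncomputable def lam (x y z : V) : P := fun i =>
  ⟨Nat.findGreatest (fun r => Ends c i r x y z) 4, Nat.lt_succ_of_le (Nat.findGreatest_le 4)⟩

lemma lam_lt (hc : ∀ i x y z, x < y → y < z → ¬ Ends c i 5 x y z) {x y z w : V} (h1 : x < y)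
    (h2 : y < z) (h3 : z < w) : lam c x y z (c x y z w) < lam c y z w (c x y z w) := by
  classical
  set i := c x y z w with hi
  have h0 : Ends c i (Nat.findGreatest (fun r => Ends c i r x y z) 4) x y z :=
    Nat.findGreatest_spec (P := fun r => Ends c i r x y z) (Nat.zero_le 4) trivial
  have hle := Nat.findGreatest_le (P := fun r => Ends c i r x y z) 4
  have h4 : Ends c i (Nat.findGreatest (fun r => Ends c i r x y z) 4 + 1) y z w :=
    ⟨x, h1, rfl, h0⟩
  have h5 : Nat.findGreatest (fun r => Ends c i r x y z) 4 + 1 ≤ 4 := by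
    by_contra h
    have : Nat.findGreatest (fun r => Ends c i r x y z) 4 + 1 = 5 := by omega
    rw [this] at h4
    exact hc i y z w h2 h3 h4
  exact Nat.le_findGreatest (P := fun r => Ends c i r y z w) h5 h4

/-- label of a pair -/
def DD (y z : V) : L :=
  ⟨{p | ∃ x, x < y ∧ p ≤ lam c x y z}, fun _ _ hab ⟨x, hx, h⟩ => ⟨x, hx, hab.trans h⟩⟩

/-- label of a vertex -/
def EE (z : V) : LL :=
  ⟨{D | ∃ y, y < z ∧ D ≤ DD c y z}, fun _ _ hab ⟨x, hx, h⟩ => ⟨x, hx, hab.trans h⟩⟩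

variable (hc : ∀ i x y z, x < y → y < z → ¬ Ends c i 5 x y z)

lemma lam_mem {x y z : V} (h : x < y) : lam c x y z ∈ DD c y z := ⟨x, h, le_rfl⟩

include hc in
lemma lam_not_mem {y z w : V} (h2 : y < z) (h3 : z < w) : lam c y z w ∉ DD c y z := by
  rintro ⟨x, hx, h⟩
  exact absurd (lam_lt c hc hx h2 h3) (not_lt.2 (h _))

lemma DD_mem {y z : V} (h : y < z) : DD c y z ∈ EE c z := ⟨y, h, le_rfl⟩

include hc in
lemma DD_not_mem {z w : V} (h3 : z < w) : DD c z w ∉ EE c z := by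
  rintro ⟨y, hy, h⟩
  exact lam_not_mem c hc hy h3 (h (lam_mem c hy))

include hc in
lemma EE_not_le {z w : V} (h : z < w) : ¬ EE c w ≤ EE c z := fun h' =>
  DD_not_mem c hc h (h' (DD_mem c h))

include hc in
lemma EE_inj : Function.Injective (EE c) := by
  intro z w h
  rcases lt_trichotomy z w with h1 | h1 | h1
  · exact absurd h.ge (EE_not_le c hc h1)
  · exact h1
  · exact absurd h.le (EE_not_le c hc h1)

end labels

/-- fourteen six-element subsets of the middle layer -/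
def SS : Fin 14 → Finset P :=
  ![{![1,3,2], ![2,1,3], ![3,2,1], ![0,2,4], ![4,0,2], ![2,4,0]},
    {![1,3,2], ![2,1,3], ![3,2,1], ![1,2,3], ![3,1,2], ![2,3,1]},
    {![1,3,2], ![2,1,3], ![3,2,1], ![1,2,3], ![4,0,2], ![2,4,0]},
    {![1,3,2], ![2,1,3], ![3,2,1], ![0,2,4], ![3,1,2], ![2,4,0]},
    {![1,3,2], ![2,1,3], ![3,2,1], ![0,2,4], ![4,0,2], ![2,3,1]},
    {![2,2,2], ![2,1,3], ![3,2,1], ![0,2,4], ![4,0,2], ![2,4,0]},
    {![1,3,2], ![2,2,2], ![3,2,1], ![0,2,4], ![4,0,2], ![2,4,0]},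
    {![1,3,2], ![2,1,3], ![2,2,2], ![0,2,4], ![4,0,2], ![2,4,0]},
    {![1,3,2], ![2,1,3], ![3,2,1], ![2,2,2], ![3,1,2], ![2,3,1]},
    {![1,3,2], ![2,1,3], ![3,2,1], ![1,2,3], ![2,2,2], ![2,3,1]},
    {![1,3,2], ![2,1,3], ![3,2,1], ![1,2,3], ![3,1,2], ![2,2,2]},
    {![1,3,2], ![2,1,3], ![3,2,1], ![0,2,4], ![3,1,2], ![2,3,1]},
    {![1,3,2], ![2,1,3], ![3,2,1], ![1,2,3], ![4,0,2], ![2,3,1]},
    {![1,3,2], ![2,1,3], ![3,2,1], ![1,2,3], ![3,1,2], ![2,4,0]}]

/-- rank -/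
def rk (p : P) : ℕ := (p 0).val + (p 1).val + (p 2).val

lemma SS_rk : ∀ t, ∀ p ∈ SS t, rk p = 6 := by decide +kernel

lemma SS_anti : ∀ s t, SS s ⊆ SS t → s = t := by decide +kernel

lemma rk_lt {p p' : P} (h : p ≤ p') (hne : p ≠ p') : rk p < rk p' := by
  have h0 : (p 0).val ≤ (p' 0).val := h 0
  have h1 : (p 1).val ≤ (p' 1).val := h 1
  have h2 : (p 2).val ≤ (p' 2).val := h 2
  by_contra hn
  unfold rk at hn
  apply hne
  funext i
  fin_cases i <;> apply Fin.ext <;> simp <;> omega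

/-- the corresponding lower sets -/
def AA (t : Fin 14) : L :=
  ⟨{p | rk p < 6 ∨ p ∈ SS t}, by
    intro a b hab h
    by_cases hne : b = a
    · rw [hne]; exact h
    · have := rk_lt hab hne
      rcases h with h | h
      · left; show rk b < 6; omega
      · left; have := SS_rk t a h; show rk b < 6; omega⟩

lemma AA_diff {s t : Fin 14} {p : P} (h1 : p ∈ AA s) (h2 : p ∉ AA t) : p ∈ SS s \ SS t := by
  have h1' : rk p < 6 ∨ p ∈ SS s := h1
  have h2' : ¬ (rk p < 6 ∨ p ∈ SS t) := h2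
  rw [Finset.mem_sdiff]; tauto

lemma AA_anti {s t : Fin 14} (h : AA s ≤ AA t) : s = t := by
  refine SS_anti s t fun p hp => ?_
  have h1 : p ∈ AA t := h (show p ∈ AA s from Or.inr hp)
  have h2 : rk p < 6 ∨ p ∈ SS t := h1
  have := SS_rk s p hp
  rcases h2 with h2 | h2
  · omega
  · exact h2

/-- vertex labels -/
def GG (T : Finset (Fin 14)) : LL :=
  ⟨{D | (∃ t, D < AA t) ∨ ∃ t ∈ T, D = AA t}, by
    intro a b hab h
    rcases h with ⟨t, h⟩ | ⟨t, ht, h⟩
    · exact Or.inl ⟨t, lt_of_le_of_lt hab h⟩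
    · rcases hab.lt_or_eq with h' | h'
      · exact Or.inl ⟨t, h ▸ h'⟩
      · exact Or.inr ⟨t, ht, h'.trans h⟩⟩

lemma GG_diff {T T' : Finset (Fin 14)} {D : L} (h1 : D ∈ GG T') (h2 : D ∉ GG T) :
    ∃ t ∈ T' \ T, D = AA t := by
  have h1' : (∃ t, D < AA t) ∨ ∃ t ∈ T', D = AA t := h1
  have h2' : ¬ ((∃ t, D < AA t) ∨ ∃ t ∈ T, D = AA t) := h2
  rcases h1' with h | ⟨t, ht, h⟩
  · exact absurd (Or.inl h) h2'
  · exact ⟨t, Finset.mem_sdiff.2 ⟨ht, fun ht' => h2' (Or.inr ⟨t, ht', h⟩)⟩, h⟩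

lemma GG_mono {T T' : Finset (Fin 14)} (h : T ⊆ T') : GG T ≤ GG T' := by
  rintro D (h1 | ⟨t, ht, h1⟩)
  · exact Or.inl h1
  · exact Or.inr ⟨t, h ht, h1⟩

lemma GG_ne {T T' : Finset (Fin 14)} {t : Fin 14} (h : t ∈ T') (h' : t ∉ T) : GG T ≠ GG T' := by
  intro e
  have h1 : AA t ∈ GG T := e ▸ (show AA t ∈ GG T' from Or.inr ⟨t, h, rfl⟩)
  rcases h1 with ⟨s, hs⟩ | ⟨s, hs, hs'⟩
  · exact hs.ne (by rw [AA_anti hs.le])
  · exact h' (AA_anti hs'.le ▸ hs)

/-- the base family -/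
def T0 : Finset (Fin 14) := {2, 3, 4, 5, 6, 7}

set_option synthInstance.maxSize 100000 in
lemma facts : ∀ b ∈ SS 1 \ SS 0,
    (∃ t ∈ ({(2, 8, 0), (3, 9, 1), (4, 10, 2)} : Finset (Fin 14 × Fin 14 × Fin 3)),
      (∀ a ∈ SS 0 \ SS t.1, ∀ j, a j < b j → j = t.2.2) ∧
      (∀ g ∈ SS t.2.1 \ SS 1, ∀ j, b j < g j → j = t.2.2) ∧
      (∀ e ∈ SS 1 \ SS t.1, ∀ g ∈ SS t.2.1 \ SS 1, ¬ e t.2.2 < g t.2.2)) ∧
    (∃ t ∈ ({(5, 11, 2), (6, 12, 0), (7, 13, 1)} : Finset (Fin 14 × Fin 14 × Fin 3)),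
      (∀ a ∈ SS 0 \ SS t.1, ∀ j, a j < b j → j = t.2.2) ∧
      (∀ g ∈ SS t.2.1 \ SS 1, ∀ j, b j < g j → j = t.2.2) ∧
      (∀ e ∈ SS 0 \ SS t.1, ∀ g ∈ SS t.2.1 \ SS 0, ¬ e t.2.2 < g t.2.2)) := by
  decide +kernel

theorem core {V : Type} [LinearOrder V] (c : V → V → V → V → Fin 3)
    (hc : ∀ i x y z, x < y → y < z → ¬ Ends c i 5 x y z)
    (ht : ∀ x y z u w, x < y → y < z → z < u → u < w → ∀ i, c x y z u = i → c y z u w = i →
      c x y u w = i)
    (hs : Function.Surjective (EE c)) : False := by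
  choose v hv using fun T => hs (GG T)
  have hlt : ∀ {T T' : Finset (Fin 14)} {t : Fin 14}, T ⊆ T' → t ∈ T' → t ∉ T → v T < v T' := by
    intro T T' t h1 h2 h3
    rcases lt_trichotomy (v T) (v T') with h | h | h
    · exact h
    · exact absurd (by rw [← hv, ← hv, h]) (GG_ne h2 h3)
    · exact absurd (by rw [hv, hv]; exact GG_mono h1) (EE_not_le c hc h)
  have hD : ∀ {T T' : Finset (Fin 14)}, v T < v T' → ∃ t ∈ T' \ T, DD c (v T) (v T') = AA t :=
    fun h => GG_diff (hv _ ▸ DD_mem c h) (hv _ ▸ DD_not_mem c hc h)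
  have hl : ∀ {x y z : V} {s t : Fin 14}, x < y → y < z → DD c x y = AA s → DD c y z = AA t →
      lam c x y z ∈ SS t \ SS s :=
    fun h1 h2 e1 e2 => AA_diff (e2 ▸ lam_mem c h1) (e1 ▸ lam_not_mem c hc h1 h2)
  have l23 : v T0 < v (insert 0 T0) := hlt (t := 0) (by decide) (by decide) (by decide)
  have l34 : v (insert 0 T0) < v (insert 1 (insert 0 T0)) :=
    hlt (t := 1) (by decide) (by decide) (by decide)
  have d23 : DD c (v T0) (v (insert 0 T0)) = AA 0 := by
    obtain ⟨t, h1, h2⟩ := hD l23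
    have : t = 0 := by clear h2; revert t; decide
    rw [h2, this]
  have d34 : DD c (v (insert 0 T0)) (v (insert 1 (insert 0 T0))) = AA 1 := by
    obtain ⟨t, h1, h2⟩ := hD l34
    have : t = 1 := by clear h2; revert t; decide
    rw [h2, this]
  have hb := hl l23 l34 d23 d34
  have key : ∀ (t1 t4 : Fin 14) (i : Fin 3), t1 ∈ T0 → t4 ∉ insert 1 (insert 0 T0) →
      (∀ a ∈ SS 0 \ SS t1, ∀ j,
        a j < lam c (v T0) (v (insert 0 T0)) (v (insert 1 (insert 0 T0))) j → j = i) →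
      (∀ g ∈ SS t4 \ SS 1, ∀ j,
        lam c (v T0) (v (insert 0 T0)) (v (insert 1 (insert 0 T0))) j < g j → j = i) →
      ∀ s, DD c (v T0) (v (insert 1 (insert 0 T0))) = AA s →
        ∃ e ∈ SS s \ SS t1, ∃ g ∈ SS t4 \ SS s, e i < g i := by
    intro t1 t4 i h1 h4 ha hg s hs'
    have l12 : v (T0.erase t1) < v T0 :=
      hlt (t := t1) (Finset.erase_subset _ _) h1 (Finset.notMem_erase _ _)
    have l45 : v (insert 1 (insert 0 T0)) < v (insert t4 (insert 1 (insert 0 T0))) :=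
      hlt (t := t4) (Finset.subset_insert _ _) (Finset.mem_insert_self _ _) h4
    have d12 : DD c (v (T0.erase t1)) (v T0) = AA t1 := by
      obtain ⟨t, h1', h2⟩ := hD l12
      have : t = t1 := by
        rw [Finset.mem_sdiff, Finset.mem_erase] at h1'
        by_contra hne
        exact h1'.2 ⟨hne, h1'.1⟩
      rw [h2, this]
    have d45 : DD c (v (insert 1 (insert 0 T0))) (v (insert t4 (insert 1 (insert 0 T0)))) =
        AA t4 := by
      obtain ⟨t, h1', h2⟩ := hD l45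
      have : t = t4 := by
        rw [Finset.mem_sdiff, Finset.mem_insert] at h1'
        rcases h1'.1 with h | h
        · exact h
        · exact absurd h h1'.2
      rw [h2, this]
    have c1 := ha _ (hl l12 l23 d12 d23) _ (lam_lt c hc l12 l23 l34)
    have c2 := hg _ (hl l34 l45 d34 d45) _ (lam_lt c hc l23 l34 l45)
    have c3 := ht _ _ _ _ _ l12 l23 l34 l45 i c1 c2
    have l24 := l23.trans l34
    have := lam_lt c hc l12 l24 l45
    rw [c3] at this
    exact ⟨_, hl l12 l24 d12 hs', _, hl l24 l45 hs' d45, this⟩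
  obtain ⟨⟨t, ht1, a1, a2, a3⟩, ⟨t', ht1', b1, b2, b3⟩⟩ := facts _ hb
  have m1 : t.1 ∈ T0 ∧ t.2.1 ∉ insert 1 (insert 0 T0) := by
    simp only [Finset.mem_insert, Finset.mem_singleton] at ht1
    rcases ht1 with rfl | rfl | rfl <;> decide
  have m2 : t'.1 ∈ T0 ∧ t'.2.1 ∉ insert 1 (insert 0 T0) := by
    simp only [Finset.mem_insert, Finset.mem_singleton] at ht1'
    rcases ht1' with rfl | rfl | rfl <;> decide
  obtain ⟨s, hs1, hs2⟩ := hD (l23.trans l34)
  have : s = 0 ∨ s = 1 := by clear hs2; revert s; decide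
  rcases this with rfl | rfl
  · obtain ⟨e, he, g, hg, h⟩ := key _ _ _ m2.1 m2.2 b1 b2 0 hs2
    exact b3 e he g hg h
  · obtain ⟨e, he, g, hg, h⟩ := key _ _ _ m1.1 m1.2 a1 a2 1 hs2
    exact a3 e he g hg h

lemma edge4 {m N : ℕ} (x : Fin m → Fin N) (j : ℕ) (h : j + 3 < m) :
    edge x j 4 = {x ⟨j, by omega⟩, x ⟨j + 1, by omega⟩, x ⟨j + 2, by omega⟩, x ⟨j + 3, h⟩} := by
  ext y
  simp only [edge, Finset.mem_image, Finset.mem_filter, Finset.mem_univ, true_and,
    Finset.mem_insert, Finset.mem_singleton]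
  constructor
  · rintro ⟨⟨t, ht⟩, ⟨h1, h2⟩, rfl⟩
    dsimp only at h1 h2
    have : t = j ∨ t = j + 1 ∨ t = j + 2 ∨ t = j + 3 := by omega
    rcases this with rfl | rfl | rfl | rfl <;> simp
  · rintro (rfl | rfl | rfl | rfl) <;> exact ⟨_, by constructor <;> dsimp only <;> omega, rfl⟩

lemma no_ends {N : ℕ} (c : Finset (Fin N) → Fin 3) (h : ¬ HasMonoPath 4 5 c) :
    ∀ i x y z, x < y → y < z → ¬ Ends (fun x y z w => c {x, y, z, w}) i 5 x y z := by
  rintro i x y z h1 h2 ⟨w5, l5, c5, w4, l4, c4, w3, l3, c3, w2, l2, c2, w1, l1, c1, -⟩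
  refine h ⟨![w1, w2, w3, w4, w5, x, y, z], ?_, i, ?_⟩
  · refine Fin.strictMono_iff_lt_succ.2 fun t => ?_
    fin_cases t <;> assumption
  · intro j hj
    rw [edge4 _ j (by omega)]
    interval_cases j <;> assumption

theorem upper {N : ℕ} (c : Finset (Fin N) → Fin 3) (h : ¬ HasMonoPath 4 5 c) :
    N ≤ Nat.card LL := by
  have := Nat.card_le_card_of_injective _ (EE_inj _ (no_ends c h))
  simpa using this

theorem upper_trans (c : Finset (Fin (Nat.card LL)) → Fin 3) (ht : IsTransitive 4 c) :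
    HasMonoPath 4 5 c := by
  by_contra h
  refine core (fun x y z w => c {x, y, z, w}) (no_ends c h) ?_ ?_
  · intro x y z u w h1 h2 h3 h4 i c1 c2
    refine ht ![x, y, z, u, w] ?_ i ?_ ?_ _ ?_ ?_
    · refine Fin.strictMono_iff_lt_succ.2 fun t => ?_
      fin_cases t <;> assumption
    · rw [edge4 _ 0 (by omega)]; exact c1
    · rw [edge4 _ 1 (by omega)]; exact c2
    · intro a ha
      simp only [Finset.mem_insert, Finset.mem_singleton] at ha
      rw [Finset.mem_image]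
      rcases ha with rfl | rfl | rfl | rfl
      · exact ⟨0, Finset.mem_univ _, rfl⟩
      · exact ⟨1, Finset.mem_univ _, rfl⟩
      · exact ⟨3, Finset.mem_univ _, rfl⟩
      · exact ⟨4, Finset.mem_univ _, rfl⟩
    · have h5 := h2.trans h3
      rw [Finset.card_eq_four]
      exact ⟨x, y, u, w, h1.ne, (h1.trans h5).ne, (h1.trans (h5.trans h4)).ne, h5.ne,
        (h5.trans h4).ne, h4.ne, rfl⟩
  · exact ((Nat.bijective_iff_injective_and_card _).2
      ⟨EE_inj _ (no_ends c h), by simp⟩).2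

theorem lower_of {N : ℕ} (E : Fin N → LL) (hE : ∀ u v, u < v → ¬ E v ≤ E u) :
    ∃ c : Finset (Fin N) → Fin 3, ¬ HasMonoPath 4 5 c := by
  classical
  have h1 : ∀ u v : Fin N, ∃ D : L, u < v → D ∈ E v ∧ D ∉ E u := by
    intro u v
    by_cases h : u < v
    · obtain ⟨D, hD⟩ := Set.not_subset.1 (show ¬ (E v : Set L) ⊆ E u from hE u v h)
      exact ⟨D, fun _ => hD⟩
    · exact ⟨⊥, fun h' => absurd h' h⟩
  choose d hd using h1
  have h2 : ∀ u v w : Fin N, ∃ p : P, u < v → v < w → p ∈ d v w ∧ p ∉ d u v := by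
    intro u v w
    by_cases h : u < v ∧ v < w
    · have : ¬ d v w ≤ d u v := fun h' =>
        (hd v w h.2).2 ((E v).lower h' (hd u v h.1).1)
      obtain ⟨p, hp⟩ := Set.not_subset.1 (show ¬ (d v w : Set P) ⊆ d u v from this)
      exact ⟨p, fun _ _ => hp⟩
    · exact ⟨0, fun a b => absurd ⟨a, b⟩ h⟩
  choose l hl using h2
  have h3 : ∀ u v w x : Fin N, ∃ i : Fin 3, u < v → v < w → w < x → l u v w i < l v w x i := by
    intro u v w x
    by_cases h : u < v ∧ v < w ∧ w < x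
    · have : ¬ l v w x ≤ l u v w := fun h' =>
        (hl v w x h.2.1 h.2.2).2 ((d v w).lower h' (hl u v w h.1 h.2.1).1)
      obtain ⟨i, hi⟩ := not_forall.1 this
      exact ⟨i, fun _ _ _ => not_le.1 hi⟩
    · exact ⟨0, fun a b c => absurd ⟨a, b, c⟩ h⟩
  choose col hcol using h3
  refine ⟨fun s => if h : s.card = 4 then col (s.orderEmbOfFin h 0) (s.orderEmbOfFin h 1)
    (s.orderEmbOfFin h 2) (s.orderEmbOfFin h 3) else 0, ?_⟩
  have hc : ∀ u v w x : Fin N, u < v → v < w → w < x → ∀ i,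
      (if h : ({u, v, w, x} : Finset (Fin N)).card = 4 then
        col (({u, v, w, x} : Finset (Fin N)).orderEmbOfFin h 0)
          (({u, v, w, x} : Finset (Fin N)).orderEmbOfFin h 1)
          (({u, v, w, x} : Finset (Fin N)).orderEmbOfFin h 2)
          (({u, v, w, x} : Finset (Fin N)).orderEmbOfFin h 3) else 0) = i →
      (l u v w i).val < (l v w x i).val := by
    intro u v w x a b c i hi
    have h : ({u, v, w, x} : Finset (Fin N)).card = 4 := by
      rw [Finset.card_eq_four]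
      exact ⟨u, v, w, x, a.ne, (a.trans b).ne, (a.trans (b.trans c)).ne, b.ne,
        (b.trans c).ne, c.ne, rfl⟩
    have e := Finset.orderEmbOfFin_unique h (f := ![u, v, w, x])
      (fun t => by fin_cases t <;> simp)
      (Fin.strictMono_iff_lt_succ.2 fun t => by fin_cases t <;> assumption)
    rw [dif_pos h, ← congrFun e 0, ← congrFun e 1, ← congrFun e 2, ← congrFun e 3] at hi
    rw [← hi]
    exact hcol u v w x a b c
  rintro ⟨x, hx, i, hi⟩
  have k0 := hi 0 (by omega)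
  have k1 := hi 1 (by omega)
  have k2 := hi 2 (by omega)
  have k3 := hi 3 (by omega)
  have k4 := hi 4 (by omega)
  rw [edge4 _ _ (by omega)] at k0 k1 k2 k3 k4
  have e0 := hc _ _ _ _ (hx (by simp)) (hx (by simp)) (hx (by simp)) i k0
  have e1 := hc _ _ _ _ (hx (by simp)) (hx (by simp)) (hx (by simp)) i k1
  have e2 := hc _ _ _ _ (hx (by simp)) (hx (by simp)) (hx (by simp)) i k2
  have e3 := hc _ _ _ _ (hx (by simp)) (hx (by simp)) (hx (by simp)) i k3
  have e4 := hc _ _ _ _ (hx (by simp)) (hx (by simp)) (hx (by simp)) i k4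
  have := lt_of_lt_of_le e4 (Nat.lt_succ_iff.1 (Fin.is_lt _))
  have f1 := lt_of_le_of_lt (Nat.succ_le_of_lt e0) e1
  have f2 := lt_of_le_of_lt (Nat.succ_le_of_lt f1) e2
  have f3 := lt_of_le_of_lt (Nat.succ_le_of_lt f2) e3
  have f4 := lt_of_le_of_lt (Nat.succ_le_of_lt f3) this
  omega

theorem lower {N : ℕ} (h : N ≤ Nat.card LL) :
    ∃ c : Finset (Fin N) → Fin 3, ¬ HasMonoPath 4 5 c := by
  letI : Fintype (LinearExtension LL) := Fintype.ofFinite LL
  have hcard : Fintype.card (LinearExtension LL) = Nat.card LL :=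
    (Nat.card_eq_fintype_card (α := LinearExtension LL)).symm
  let e := monoEquivOfFin (LinearExtension LL) hcard
  refine lower_of (fun u => (e (Fin.castLE h u) : LL)) fun u v huv hle => ?_
  have h1 : e (Fin.castLE h v) ≤ e (Fin.castLE h u) := 
    (toLinearExtension (α := LL)).monotone hle
  have h2 : Fin.castLE h v ≤ Fin.castLE h u := e.le_iff_le.1 h1
  exact absurd huv (not_lt.2 h2)

theorem main : transPathNumber 4 3 5 < pathNumber 4 3 5 := by
  have h1 : transPathNumber 4 3 5 ≤ Nat.card LL := Nat.sInf_le upper_trans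
  have h2 : {N : ℕ | ∀ c : Finset (Fin N) → Fin 3, HasMonoPath 4 5 c}.Nonempty :=
    ⟨Nat.card LL + 1, fun c => by
      by_contra h
      have := upper c h
      omega⟩
  have h3 := Nat.sInf_mem h2
  by_contra h
  obtain ⟨c, hc⟩ := lower (N := pathNumber 4 3 5) ((not_lt.1 h).trans h1)
  exact hc (h3 c)

end Pool.Agent.H533Z.TR
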